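import Pool.Agent.T9h49.RK.Tseitin

/-!
# The lower bound for refutations with few occurrences of each variable
-/

set_option autoImplicit false

namespace Pool.Agent.T9h49.RK

open Finset Classical

theorem sizeL_flatMap {α : Type} (l : List α) (g : α → List PForm) :
    sizeL (l.flatMap g) = (l.map (fun a => sizeL (g a))).sum := by
  induction l with
  | nil => rfl
  | cons a l ih =>
    unfold sizeL at ih ⊢
    simp only [List.flatMap_cons, List.map_append, List.sum_append, List.map_cons, List.sum_cons,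
      ih]

section

variable {N D q : ℕ}

theorem sizeL_tse (f : Fin (N + 1) × Fin D → Fin (N + 1)) :
    sizeL (tse f q) = ∑ v, sizeL (oddCl (Uv f q v)) := by
  unfold tse
  rw [sizeL_flatMap, Finset.sum_map_toList]

theorem tse_size_ge (f : Fin (N + 1) × Fin D → Fin (N + 1)) : N + 1 ≤ sizeL (tse f q) := by
  rw [sizeL_tse]
  calc N + 1 = ∑ v : Fin (N + 1), 1 := by simp
    _ ≤ _ := Finset.sum_le_sum fun v _ => oddCl_size_pos _

theorem card_Uv (f : Fin (N + 1) × Fin D → Fin (N + 1)) (v : Fin (N + 1)) :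
    (Uv f q v).card ≤ q * (D + 2) + q * indeg f v := by
  have h1 : Uv f q v = (univ.filter (fun e => Inc f v e)) ×ˢ (univ : Finset (Fin q)) := by
    ext p
    simp [Uv]
  rw [h1, Finset.card_product, Finset.card_univ, Fintype.card_fin]
  have h2 : (univ.filter (fun e : Ed N D => Inc f v e)).card ≤ D + 2 + indeg f v := by
    have h3 : (univ.filter (fun e : Ed N D => Inc f v e)) ⊆
        (({Sum.inl v, Sum.inl (v - 1)} : Finset (Ed N D)) ∪
        (({v} ×ˢ (univ : Finset (Fin D))).image (fun p => (Sum.inr p : Ed N D)))) ∪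
        (univ.filter (fun p : Fin (N + 1) × Fin D => f p = v)).image
          (fun p => (Sum.inr p : Ed N D)) := by
      intro e he
      have he' : v = tl e ∨ v = hd f e := by
        rcases (mem_filter.mp he).2 with ⟨h, _⟩ | ⟨_, h⟩
        · exact Or.inl h
        · exact Or.inr h
      rw [mem_union, mem_union]
      rcases e with u | p
      · left; left
        rcases he' with h | h
        · have h' : v = u := h
          rw [h']; simp
        · have h' : v = u + 1 := h
          rw [h']; simp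
      · rcases he' with h | h
        · left; right
          have h' : v = p.1 := h
          exact mem_image.mpr ⟨p, by simp [h'], rfl⟩
        · right
          have h' : v = f p := h
          exact mem_image.mpr ⟨p, by simp [h'], rfl⟩
    refine (Finset.card_le_card h3).trans ((Finset.card_union_le _ _).trans ?_)
    have c1 : (({Sum.inl v, Sum.inl (v - 1)} : Finset (Ed N D))).card ≤ 2 :=
      Finset.card_le_two
    have c2 : ((({v} ×ˢ (univ : Finset (Fin D))).image
        (fun p => (Sum.inr p : Ed N D)))).card ≤ D := by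
      refine Finset.card_image_le.trans ?_
      simp
    have c3 : ((univ.filter (fun p : Fin (N + 1) × Fin D => f p = v)).image
          (fun p => (Sum.inr p : Ed N D))).card ≤ indeg f v := by
      refine Finset.card_image_le.trans (le_of_eq ?_)
      unfold indeg
      congr
    have c4 := Finset.card_union_le ({Sum.inl v, Sum.inl (v - 1)} : Finset (Ed N D))
      ((({v} ×ˢ (univ : Finset (Fin D))).image (fun p => (Sum.inr p : Ed N D))))
    omega
  calc (univ.filter (fun e : Ed N D => Inc f v e)).card * q ≤ (D + 2 + indeg f v) * q :=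
        Nat.mul_le_mul_right _ h2
    _ = _ := by ring

theorem tse_size_le (f : Fin (N + 1) × Fin D → Fin (N + 1)) (hq : 0 < q) (hN : 1 ≤ N) :
    (sizeL (tse f q) : ℝ) ≤ 3 * 4 ^ (q * (D + 2)) * ∑ v, ((4 : ℝ) ^ q) ^ indeg f v := by
  rw [sizeL_tse]
  push_cast
  rw [Finset.mul_sum]
  refine Finset.sum_le_sum fun v _ => ?_
  have h1 := oddCl_size (Uv f q v) (Uv_nonempty f hq hN v)
  have h2 : (sizeL (oddCl (Uv f q v)) : ℝ) ≤ 3 * 4 ^ (Uv f q v).card := by exact_mod_cast h1
  refine h2.trans ?_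
  rw [mul_assoc]
  refine mul_le_mul_of_nonneg_left ?_ (by norm_num)
  calc (4 : ℝ) ^ (Uv f q v).card ≤ 4 ^ (q * (D + 2) + q * indeg f v) :=
        pow_le_pow_right₀ (by norm_num) (card_Uv f v)
    _ = _ := by rw [pow_add, pow_mul 4 q (indeg f v)]

theorem semDer (f : Fin (N + 1) × Fin D → Fin (N + 1)) (hq : 0 < q) (hN : 1 ≤ N)
    {Φ : Set Rule} {r : ℕ} (hΦ : ∀ ρ ∈ Φ, ρ.Sound ∧ ρ.prem.length ≤ r) {π : List PForm}
    (h : Derives Φ (tse f q) π) :
    SemDer (q := q) (Inc f) r (π.map pull) := by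
  induction h with
  | nil => exact .nil
  | hyp A _ hA ih =>
    obtain ⟨v, T, hT, hE, rfl⟩ := mem_tse.mp hA
    refine .ax v (fun x hx => ?_) ih
    rw [ev_pull]
    exact cl_sound f hq hN v T hT hE x hx
  | rule ρ σ _ hρ hprem ih =>
    refine .inf ((ρ.prem.map (PForm.subst σ)).map pull) ?_ ?_ ?_ ih
    · simpa using (hΦ ρ hρ).2
    · intro B hB
      rw [List.map_map] at hB
      obtain ⟨A, hA, rfl⟩ := List.mem_map.mp hB
      exact List.mem_map_of_mem (hprem A hA)
    · intro x hx
      rw [ev_pull, eval_subst]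
      refine (hΦ ρ hρ).1 _ fun A hA => ?_
      rw [← eval_subst, ← ev_pull]
      refine hx _ ?_
      rw [List.map_map]
      exact List.mem_map_of_mem (f := pull ∘ PForm.subst σ) hA

end

/-- **Exponential lower bound.** -/
theorem main (k r : ℕ) : ∃ ε : ℝ, 0 < ε ∧ ∀ m : ℕ, ∃ F : List PForm,
    (∀ A ∈ F, A.IsClause) ∧ Unsat F ∧ m ≤ sizeL F ∧
    ∀ Φ : Set Rule, (∀ ρ ∈ Φ, ρ.Sound ∧ ρ.prem.length ≤ r) → ∀ π : List PForm,
      Refutes Φ F π →
      (∀ A ∈ π, (A.vars.filter (fun n => k < A.occ n)).card ≤ k ∨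
        (A.vars.card : ℝ) < ε * sizeL F) →
      (2 : ℝ) ^ (ε * sizeL F) ≤ π.length := by
  set R := r + 1 with hR
  set D := 16 * R with hD
  obtain ⟨q, hq, δ, hδ, n0, hmain⟩ := many_lines k (c := 1 / ((D : ℝ) + 1)) (by positivity)
  obtain ⟨C, hC, hgraph⟩ := exists_graph R (B := (4 : ℝ) ^ q) (one_le_pow₀ (by norm_num))
  set K : ℝ := 3 * 4 ^ (q * (D + 2)) * C with hK
  have hK0 : 0 < K := by positivity
  refine ⟨min δ 1 / K, by positivity, fun m => ?_⟩
  set N : ℕ := 2 * (m + n0 + R) with hN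
  have hN1 : 1 ≤ N := by omega
  obtain ⟨f, hf1, hf2⟩ := hgraph N
  have hsz : (sizeL (tse f q) : ℝ) ≤ K * ((N : ℝ) + 1) := by
    refine (tse_size_le f hq hN1).trans ?_
    rw [hK, mul_assoc _ C]
    exact mul_le_mul_of_nonneg_left hf2 (by positivity)
  have hEcard : Fintype.card (Ed N D) = (N + 1) * (D + 1) := by
    rw [Fintype.card_sum, Fintype.card_prod, Fintype.card_fin, Fintype.card_fin]
    ring
  refine ⟨tse f q, tse_clause f hq hN1, tse_unsat f hq hN1 ⟨m + n0 + R, by omega⟩,
    le_trans (by omega) (tse_size_ge f), ?_⟩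
  intro Φ hΦ π hπ hk
  have hEN : ((N : ℝ) + 1) ≤ Fintype.card (Ed N D) := by
    rw [hEcard]
    push_cast
    nlinarith [Nat.cast_nonneg (α := ℝ) N, Nat.cast_nonneg (α := ℝ) D]
  have key := hmain (Fin (N + 1)) (Ed N D) (Inc f)
    (by rw [hEcard]; nlinarith) (fun A h1 h2 => connected f A h1 h2) R (by omega)
    (by rw [Fintype.card_fin]; omega)
    (by
      intro A h1 h2
      rw [Fintype.card_fin] at h1 h2
      have h3 := (hf1 A h1 h2).trans (outd_le f A)
      have h4 : ((N + 1 : ℕ) : ℝ) ≤ (bd (Inc f) A).card := by exact_mod_cast h3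
      refine le_trans (le_of_eq ?_) h4
      rw [hEcard]
      push_cast
      field_simp)
    (π.map pull)
    (semDer f hq hN1 (fun ρ hρ => ⟨(hΦ ρ hρ).1, ((hΦ ρ hρ).2).trans (by omega)⟩) hπ.1)
    (by
      obtain ⟨A, hA, hfalse⟩ := hπ.2
      exact ⟨pull A, List.mem_map_of_mem hA, fun x => by rw [ev_pull]; exact hfalse _⟩)
    (by
      intro L hL
      obtain ⟨A, _, rfl⟩ := List.mem_map.mp hL
      exact nsp_pull A)
    (by
      intro L hL
      obtain ⟨A, hA, rfl⟩ := List.mem_map.mp hL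
      rcases hk A hA with h | h
      · left
        refine le_trans (le_of_eq ?_) ((card_heavy_pull (E := Ed N D) (q := q) k A).trans h)
        congr
      · right
        have h1 : ((blk (pull A : Fm (Ed N D × Fin q))).card : ℝ) ≤ A.vars.card := by
          exact_mod_cast card_blk_pull A
        refine lt_of_le_of_lt h1 (lt_of_lt_of_le h ?_)
        calc min δ 1 / K * (sizeL (tse f q) : ℝ) ≤ 1 / K * (K * ((N : ℝ) + 1)) := by
              refine mul_le_mul ?_ hsz (Nat.cast_nonneg _) (by positivity)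
              exact div_le_div_of_nonneg_right (min_le_right _ _) hK0.le
          _ = (N : ℝ) + 1 := by field_simp
          _ = 1 / ((D : ℝ) + 1) * Fintype.card (Ed N D) := by
              rw [hEcard]
              push_cast
              field_simp)
  rw [List.length_map] at key
  refine le_trans ?_ key
  have h1 : min δ 1 / K * (sizeL (tse f q) : ℝ) ≤ δ * Fintype.card (Ed N D) := by
    calc min δ 1 / K * (sizeL (tse f q) : ℝ) ≤ δ / K * (K * ((N : ℝ) + 1)) := by
          refine mul_le_mul ?_ hsz (Nat.cast_nonneg _) (by positivity)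
          exact div_le_div_of_nonneg_right (min_le_left _ _) hK0.le
      _ = δ * ((N : ℝ) + 1) := by field_simp
      _ ≤ _ := mul_le_mul_of_nonneg_left hEN hδ.le
  have h2 : (0 : ℝ) ≤ min δ 1 / K * (sizeL (tse f q) : ℝ) := by positivity
  rw [Real.rpow_def_of_pos (by norm_num)]
  refine Real.exp_le_exp.mpr ?_
  have h3 : Real.log 2 ≤ 1 := by
    have := Real.log_two_lt_d9
    linarith
  calc Real.log 2 * (min δ 1 / K * (sizeL (tse f q) : ℝ)) ≤
        1 * (min δ 1 / K * (sizeL (tse f q) : ℝ)) := mul_le_mul_of_nonneg_right h3 h2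
    _ ≤ _ := by rw [one_mul]; exact h1

/-- one sequence for all systems and all bounds -/
theorem seq : ∃ F : ℕ → List PForm, (∀ n, (∀ A ∈ F n, A.IsClause) ∧ Unsat (F n) ∧
    n ≤ sizeL (F n)) ∧
    ∀ Φ : Set Rule, ∀ r : ℕ, (∀ ρ ∈ Φ, ρ.Sound ∧ ρ.prem.length ≤ r) → ∀ k c : ℕ,
      ∃ n0, ∀ n, n0 ≤ n → ∀ π, Refutes Φ (F n) π →
        (∀ A ∈ π, (A.vars.filter (fun i => k < A.occ i)).card ≤ k ∨
          A.vars.card ^ 2 ≤ sizeL (F n)) →
        sizeL (F n) ^ c < π.length := by
  choose ε hε hF using fun n : ℕ => main n n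
  have hgrow : ∀ n : ℕ, ∃ M : ℕ, ∀ s : ℕ, M ≤ s → (s : ℝ) ^ n < (2 : ℝ) ^ (ε n * s) ∧
      1 < (ε n) ^ 2 * s := by
    intro n
    have h1 := tendsto_pow_const_mul_const_pow_of_abs_lt_one n
      (r := (2 : ℝ) ^ (-(ε n))) (by
        rw [abs_of_pos (Real.rpow_pos_of_pos (by norm_num) _)]
        exact Real.rpow_lt_one_of_one_lt_of_neg (by norm_num) (by linarith [hε n]))
    obtain ⟨M, hM⟩ := Filter.eventually_atTop.mp
      (h1.eventually (gt_mem_nhds (show (0 : ℝ) < 1 by norm_num)))
    obtain ⟨M', hM'⟩ := exists_nat_gt (1 / (ε n) ^ 2)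
    refine ⟨max M M', fun s hs => ⟨?_, ?_⟩⟩
    · have h2 := hM s ((le_max_left _ _).trans hs)
      rw [← Real.rpow_natCast ((2 : ℝ) ^ (-(ε n))) s, ← Real.rpow_mul (by norm_num),
        show -(ε n) * (s : ℝ) = -(ε n * s) by ring, Real.rpow_neg (by norm_num),
        ← div_eq_mul_inv, div_lt_one (Real.rpow_pos_of_pos (by norm_num) _)] at h2
      exact h2
    · have h3 : (0 : ℝ) < (ε n) ^ 2 := by have := hε n; positivity
      rw [div_lt_iff₀ h3] at hM'
      have h4 : (M' : ℝ) ≤ s := by exact_mod_cast (le_max_right _ _).trans hs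
      nlinarith
  choose M hM using hgrow
  choose F hF1 hF2 hF3 hF4 using hF
  refine ⟨fun n => F n (max n (max 1 (M n))), fun n => ⟨hF1 _ _, hF2 _ _,
    le_trans (le_max_left _ _) (hF3 _ _)⟩, ?_⟩
  intro Φ r hΦ k c
  refine ⟨max r (max k c), fun n hn π hπ hk => ?_⟩
  have h1 : r ≤ n := (le_max_left _ _).trans hn
  have h2 : k ≤ n := ((le_max_left _ _).trans (le_max_right _ _)).trans hn
  have h3 : c ≤ n := ((le_max_right _ _).trans (le_max_right _ _)).trans hn
  set G := F n (max n (max 1 (M n))) with hG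
  have hs := hF3 n (max n (max 1 (M n)))
  rw [← hG] at hs
  have h5 := hM n (sizeL G) (((le_max_right _ _).trans (le_max_right _ _)).trans hs)
  have hs0 : (0 : ℝ) < sizeL G := by
    have : 1 ≤ sizeL G := ((le_max_left _ _).trans (le_max_right _ _)).trans hs
    exact_mod_cast this
  have h4 := hF4 n (max n (max 1 (M n))) Φ
    (fun ρ hρ => ⟨(hΦ ρ hρ).1, ((hΦ ρ hρ).2).trans h1⟩) π hπ
    (fun A hA => (hk A hA).imp (fun h => by
      refine (Finset.card_le_card fun i hi => ?_).trans (h.trans h2)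
      rw [mem_filter] at hi ⊢
      exact ⟨hi.1, lt_of_le_of_lt h2 hi.2⟩) (fun h => by
      have h : A.vars.card ^ 2 ≤ sizeL G := h
      rw [← hG]
      have h6 : ((A.vars.card : ℝ)) ^ 2 ≤ sizeL G := by exact_mod_cast h
      have h7 : ((A.vars.card : ℝ)) ^ 2 < (ε n * sizeL G) ^ 2 := by
        refine lt_of_le_of_lt h6 ?_
        rw [mul_pow]
        nlinarith [h5.2]
      have h8 : 0 ≤ ε n * sizeL G := by have := hε n; positivity
      exact lt_of_pow_lt_pow_left₀ 2 h8 h7))
  rw [← hG] at h4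
  have h6 : (sizeL G : ℝ) ^ c ≤ (sizeL G : ℝ) ^ n := by
    refine pow_le_pow_right₀ ?_ h3
    have : 1 ≤ sizeL G := ((le_max_left _ _).trans (le_max_right _ _)).trans hs
    exact_mod_cast this
  have h7 : ((sizeL G ^ c : ℕ) : ℝ) < (π.length : ℝ) := by
    push_cast
    linarith [h5.1]
  exact_mod_cast h7

end Pool.Agent.T9h49.RK
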