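import Pool.Agent.T9h49.RK.Form

/-!
# Decomposition of a formula into pieces of bounded size
-/

set_option autoImplicit false

namespace Pool.Agent.T9h49.RK

variable {V : Type}

namespace Fm

/-- number of variables and place holders -/
def wt (A : Fm V) : ℕ := lv A + nsp A

/-- cut off a piece if it is large enough -/
def clo (l : ℕ) (c : Fm V) (L : List (Fm V)) : Fm V × List (Fm V) :=
  if l ≤ c.wt then (sp, c :: L) else (c, L)

/-- the remaining formula and the list of the pieces -/
def dec (l : ℕ) : Fm V → Fm V × List (Fm V)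
  | var v => (var v, [])
  | cst b => (cst b, [])
  | sp => (sp, [])
  | neg A => (neg (dec l A).1, (dec l A).2)
  | conj A B => clo l (conj (dec l A).1 (dec l B).1) ((dec l A).2 ++ (dec l B).2)
  | disj A B => clo l (disj (dec l A).1 (dec l B).1) ((dec l A).2 ++ (dec l B).2)

theorem clo_wt {l : ℕ} (hl : 2 ≤ l) (c : Fm V) (L : List (Fm V)) : (clo l c L).1.wt < l := by
  unfold clo
  split
  · simp only [wt, lv, nsp]; omega
  · simpa using ‹¬ l ≤ c.wt›

theorem dec_wt {l : ℕ} (hl : 2 ≤ l) (F : Fm V) : (dec l F).1.wt < l := by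
  induction F with
  | var v => simp only [dec, wt, lv, nsp]; omega
  | cst b => simp only [dec, wt, lv, nsp]; omega
  | sp => simp only [dec, wt, lv, nsp]; omega
  | neg A ih => simpa only [dec, wt, lv, nsp] using ih
  | conj A B _ _ => exact clo_wt hl _ _
  | disj A B _ _ => exact clo_wt hl _ _

theorem clo_mem {l : ℕ} (c : Fm V) (L : List (Fm V)) (hc : c.wt < 2 * l)
    (hL : ∀ x ∈ L, l ≤ x.wt ∧ x.wt < 2 * l) : ∀ x ∈ (clo l c L).2, l ≤ x.wt ∧ x.wt < 2 * l := by
  unfold clo
  split
  · intro x hx
    simp only [List.mem_cons] at hx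
    rcases hx with rfl | hx
    · exact ⟨‹_›, hc⟩
    · exact hL x hx
  · exact hL

theorem dec_mem {l : ℕ} (hl : 2 ≤ l) (F : Fm V) :
    ∀ x ∈ (dec l F).2, l ≤ x.wt ∧ x.wt < 2 * l := by
  induction F with
  | var v => simp [dec]
  | cst b => simp [dec]
  | sp => simp [dec]
  | neg A ih => simpa only [dec] using ih
  | conj A B iA iB =>
    refine clo_mem _ _ ?_ ?_
    · have h1 := dec_wt hl A
      have h2 := dec_wt hl B
      simp only [wt, lv, nsp] at h1 h2 ⊢
      omega
    · intro x hx
      rw [List.mem_append] at hx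
      exact hx.elim (iA x) (iB x)
  | disj A B iA iB =>
    refine clo_mem _ _ ?_ ?_
    · have h1 := dec_wt hl A
      have h2 := dec_wt hl B
      simp only [wt, lv, nsp] at h1 h2 ⊢
      omega
    · intro x hx
      rw [List.mem_append] at hx
      exact hx.elim (iA x) (iB x)

theorem clo_sum (l : ℕ) (c : Fm V) (L : List (Fm V)) :
    ((clo l c L).2.map nsp).sum + (clo l c L).1.nsp + L.length =
      (L.map nsp).sum + c.nsp + (clo l c L).2.length ∧
    ((clo l c L).2.map lv).sum + (clo l c L).1.lv = (L.map lv).sum + c.lv := by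
  unfold clo
  split
  · simp only [List.map_cons, List.sum_cons, List.length_cons, nsp, lv]; omega
  · simp

theorem dec_sum (l : ℕ) (F : Fm V) :
    ((dec l F).2.map nsp).sum + (dec l F).1.nsp = F.nsp + (dec l F).2.length ∧
    ((dec l F).2.map lv).sum + (dec l F).1.lv = F.lv := by
  induction F with
  | var v => simp [dec, nsp, lv]
  | cst b => simp [dec, nsp, lv]
  | sp => simp [dec, nsp, lv]
  | neg A ih => simpa only [dec, nsp, lv] using ih
  | conj A B iA iB =>
    have h := clo_sum l (conj (dec l A).1 (dec l B).1) ((dec l A).2 ++ (dec l B).2)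
    simp only [List.map_append, List.sum_append, List.length_append] at h
    simp only [dec]
    simp only [nsp, lv] at h iA iB ⊢
    omega
  | disj A B iA iB =>
    have h := clo_sum l (disj (dec l A).1 (dec l B).1) ((dec l A).2 ++ (dec l B).2)
    simp only [List.map_append, List.sum_append, List.length_append] at h
    simp only [dec]
    simp only [nsp, lv] at h iA iB ⊢
    omega

theorem clo_oc [DecidableEq V] (v : V) (l : ℕ) (c : Fm V) (L : List (Fm V)) :
    ((clo l c L).2.map (oc v)).sum + (clo l c L).1.oc v = (L.map (oc v)).sum + c.oc v := by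
  unfold clo
  split
  · simp only [List.map_cons, List.sum_cons, oc]; omega
  · simp

theorem dec_oc [DecidableEq V] (v : V) (l : ℕ) (F : Fm V) :
    ((dec l F).2.map (oc v)).sum + (dec l F).1.oc v = F.oc v := by
  induction F with
  | var w => simp [dec]
  | cst b => simp [dec]
  | sp => simp [dec]
  | neg A ih => simpa only [dec, oc] using ih
  | conj A B iA iB =>
    have h := clo_oc v l (conj (dec l A).1 (dec l B).1) ((dec l A).2 ++ (dec l B).2)
    simp only [List.map_append, List.sum_append] at h
    simp only [dec]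
    simp only [oc] at h iA iB ⊢
    omega
  | disj A B iA iB =>
    have h := clo_oc v l (disj (dec l A).1 (dec l B).1) ((dec l A).2 ++ (dec l B).2)
    simp only [List.map_append, List.sum_append] at h
    simp only [dec]
    simp only [oc] at h iA iB ⊢
    omega

/-- no instance of the piece distinguishes the assignments `a` and `b` -/
def Blind (a b : V → Bool) (c : Fm V) : Prop := ∀ x ∈ inst c, x.ev a = x.ev b

theorem clo_sem {a b : V → Bool} {l : ℕ} {c : Fm V} {L : List (Fm V)} {s t : Bool}
    (h : ∀ x ∈ (clo l c L).2, Blind a b x)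
    (hc : ∃ x ∈ inst c, x.ev a = s ∧ x.ev b = t) :
    ∃ x ∈ inst (clo l c L).1, x.ev a = s ∧ x.ev b = t := by
  unfold clo at h ⊢
  split at h
  · rw [if_pos ‹_›]
    obtain ⟨x, hx, h1, h2⟩ := hc
    have h3 : x.ev a = x.ev b := h c (by simp) x hx
    refine ⟨cst s, ?_, rfl, ?_⟩
    · cases s <;> simp [inst]
    · rw [← h2, ← h3, h1]; rfl
  · rw [if_neg ‹_›]
    exact hc

theorem clo_sub {l : ℕ} {c : Fm V} {L : List (Fm V)} : ∀ x ∈ L, x ∈ (clo l c L).2 := by
  intro x hx
  unfold clo
  split
  · exact List.mem_cons_of_mem _ hx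
  · exact hx

theorem dec_sem {a b : V → Bool} (l : ℕ) (F : Fm V) (h : ∀ x ∈ (dec l F).2, Blind a b x) :
    ∃ x ∈ inst (dec l F).1, x.ev a = F.ev a ∧ x.ev b = F.ev b := by
  induction F with
  | var v => exact ⟨var v, by simp [dec, inst], rfl, rfl⟩
  | cst c => exact ⟨cst c, by simp [dec, inst], rfl, rfl⟩
  | sp => exact ⟨cst false, by simp [dec, inst], rfl, rfl⟩
  | neg A ih =>
    obtain ⟨x, hx, h1, h2⟩ := ih h
    exact ⟨neg x, List.mem_map_of_mem hx, by simp only [ev, h1], by simp only [ev, h2]⟩
  | conj A B iA iB =>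
    obtain ⟨x, hx, h1, h2⟩ := iA (fun y hy => h y (clo_sub y (List.mem_append_left _ hy)))
    obtain ⟨z, hz, h3, h4⟩ := iB (fun y hy => h y (clo_sub y (List.mem_append_right _ hy)))
    refine clo_sem h ⟨conj x z, ?_, by simp only [ev, h1, h3], by simp only [ev, h2, h4]⟩
    simp only [inst, List.mem_flatMap, List.mem_map]
    exact ⟨x, hx, z, hz, rfl⟩
  | disj A B iA iB =>
    obtain ⟨x, hx, h1, h2⟩ := iA (fun y hy => h y (clo_sub y (List.mem_append_left _ hy)))
    obtain ⟨z, hz, h3, h4⟩ := iB (fun y hy => h y (clo_sub y (List.mem_append_right _ hy)))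
    refine clo_sem h ⟨disj x z, ?_, by simp only [ev, h1, h3], by simp only [ev, h2, h4]⟩
    simp only [inst, List.mem_flatMap, List.mem_map]
    exact ⟨x, hx, z, hz, rfl⟩

/-- all pieces -/
def pieces (l : ℕ) (F : Fm V) : List (Fm V) := (dec l F).1 :: (dec l F).2

theorem pieces_wt {l : ℕ} (hl : 2 ≤ l) (F : Fm V) : ∀ x ∈ pieces l F, x.wt < 2 * l := by
  intro x hx
  simp only [pieces, List.mem_cons] at hx
  rcases hx with rfl | hx
  · have := dec_wt hl F; omega
  · exact (dec_mem hl F x hx).2

theorem pieces_oc [DecidableEq V] (v : V) (l : ℕ) (F : Fm V) :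
    ((pieces l F).map (oc v)).sum = F.oc v := by
  have := dec_oc v l F
  simp only [pieces, List.map_cons, List.sum_cons]
  omega

theorem pieces_nsp (l : ℕ) (F : Fm V) (hF : F.nsp = 0) :
    ((pieces l F).map nsp).sum + 1 = (pieces l F).length := by
  have := (dec_sum l F).1
  simp only [pieces, List.map_cons, List.sum_cons, List.length_cons]
  omega

theorem pieces_length {l : ℕ} (hl : 2 ≤ l) (F : Fm V) (hF : F.nsp = 0) :
    ((pieces l F).length - 1) * (l - 1) ≤ F.lv := by
  have h1 := dec_sum l F
  have h2 : (dec l F).2.length * l ≤ ((dec l F).2.map wt).sum := by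
    have := List.card_nsmul_le_sum ((dec l F).2.map wt) l (fun x hx => by
      simp only [List.mem_map] at hx
      obtain ⟨y, hy, rfl⟩ := hx
      exact (dec_mem hl F y hy).1)
    simpa using this
  have h3 : ∀ L : List (Fm V), (L.map wt).sum = (L.map lv).sum + (L.map nsp).sum := by
    intro L
    induction L with
    | nil => rfl
    | cons x L ih => simp only [List.map_cons, List.sum_cons, ih, wt]; omega
  rw [h3] at h2
  simp only [pieces, List.length_cons, Nat.add_sub_cancel]
  obtain ⟨m, rfl⟩ : ∃ m, l = m + 1 := ⟨l - 1, by omega⟩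
  simp only [Nat.add_sub_cancel]
  rw [Nat.mul_add, Nat.mul_one] at h2
  omega

theorem pieces_sem {a b : V → Bool} (l : ℕ) (F : Fm V) (h : F.ev a ≠ F.ev b) :
    ∃ c ∈ pieces l F, ∃ x ∈ inst c, x.ev a ≠ x.ev b := by
  by_contra hcon
  push Not at hcon
  obtain ⟨x, hx, h1, h2⟩ := dec_sem (a := a) (b := b) l F
    (fun x hx y hy => hcon x (List.mem_cons_of_mem _ hx) y hy)
  exact h (by rw [← h1, ← h2]; exact hcon _ (by simp [pieces]) x hx)

end Fm

end Pool.Agent.T9h49.RK
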