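import Mathlib

/-!
# Frege systems
-/

set_option autoImplicit false

namespace Pool.Agent.T9h49.RK

/-- propositional formulas in the variables `x 0, x 1, x 2, …` -/
inductive PForm : Type
  | var : ℕ → PForm
  | neg : PForm → PForm
  | and : PForm → PForm → PForm
  | or : PForm → PForm → PForm

namespace PForm

/-- the value under an assignment -/
def eval (a : ℕ → Bool) : PForm → Bool
  | var n => a n
  | neg A => !(eval a A)
  | and A B => eval a A && eval a B
  | or A B => eval a A || eval a B

/-- the number of symbols (variables and connectives) -/
def size : PForm → ℕ
  | var _ => 1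
  | neg A => size A + 1
  | and A B => size A + size B + 1
  | or A B => size A + size B + 1

/-- the number of occurrences of the variable `x n` -/
def occ (n : ℕ) : PForm → ℕ
  | var m => if m = n then 1 else 0
  | neg A => occ n A
  | and A B => occ n A + occ n B
  | or A B => occ n A + occ n B

/-- the set of the variables which occur -/
def vars : PForm → Finset ℕ
  | var m => {m}
  | neg A => vars A
  | and A B => vars A ∪ vars B
  | or A B => vars A ∪ vars B

/-- substitution of formulas for the variables -/
def subst (σ : ℕ → PForm) : PForm → PForm
  | var n => σ n
  | neg A => neg (subst σ A)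
  | and A B => and (subst σ A) (subst σ B)
  | or A B => or (subst σ A) (subst σ B)

/-- a variable or a negated variable -/
def IsLiteral : PForm → Prop
  | var _ => True
  | neg (var _) => True
  | _ => False

/-- a disjunction of literals -/
inductive IsClause : PForm → Prop
  | lit (A : PForm) : IsLiteral A → IsClause A
  | or (A B : PForm) : IsClause A → IsClause B → IsClause (or A B)

end PForm

/-- an inference rule: premises and conclusion -/
structure Rule : Type where
  prem : List PForm
  concl : PForm

/-- the premises logically imply the conclusion -/
def Rule.Sound (ρ : Rule) : Prop :=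
  ∀ a : ℕ → Bool, (∀ A ∈ ρ.prem, A.eval a = true) → ρ.concl.eval a = true

/-- `Derives Φ F π`: in the list `π` (the last line comes first) each formula is a member of `F` or
the conclusion of a substitution instance of a rule of `Φ` whose premises are earlier lines. -/
inductive Derives (Φ : Set Rule) (F : List PForm) : List PForm → Prop
  | nil : Derives Φ F []
  | hyp {π : List PForm} (A : PForm) : Derives Φ F π → A ∈ F → Derives Φ F (A :: π)
  | rule {π : List PForm} (ρ : Rule) (σ : ℕ → PForm) : Derives Φ F π → ρ ∈ Φ →
      (∀ A ∈ ρ.prem, A.subst σ ∈ π) → Derives Φ F (ρ.concl.subst σ :: π)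

/-- `π` is a refutation of `F`: a derivation from `F` with an unsatisfiable line -/
def Refutes (Φ : Set Rule) (F π : List PForm) : Prop :=
  Derives Φ F π ∧ ∃ A ∈ π, ∀ a, A.eval a = false

/-- the number of symbols of a list of formulas -/
def sizeL (F : List PForm) : ℕ := (F.map PForm.size).sum

/-- no assignment satisfies all members of `F` -/
def Unsat (F : List PForm) : Prop := ∀ a, ∃ A ∈ F, A.eval a = false

end Pool.Agent.T9h49.RK
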