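import Mathlib

/-!
# Formulas, the theorem of Khrapchenko and the total influence
-/

set_option autoImplicit false

namespace Pool.Agent.T9h49.RK

open Finset

/-- formulas over the variables `V` with constants and place holders -/
inductive Fm (V : Type) : Type
  | var : V → Fm V
  | cst : Bool → Fm V
  | sp : Fm V
  | neg : Fm V → Fm V
  | conj : Fm V → Fm V → Fm V
  | disj : Fm V → Fm V → Fm V

variable {V : Type}

namespace Fm

def ev (a : V → Bool) : Fm V → Bool
  | var v => a v
  | cst b => b
  | sp => false
  | neg A => !(ev a A)
  | conj A B => ev a A && ev a B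
  | disj A B => ev a A || ev a B

/-- number of leaves which are variables -/
def lv : Fm V → ℕ
  | var _ => 1
  | cst _ => 0
  | sp => 0
  | neg A => lv A
  | conj A B => lv A + lv B
  | disj A B => lv A + lv B

/-- number of place holders -/
def nsp : Fm V → ℕ
  | var _ => 0
  | cst _ => 0
  | sp => 1
  | neg A => nsp A
  | conj A B => nsp A + nsp B
  | disj A B => nsp A + nsp B

/-- number of occurrences of a variable -/
def oc [DecidableEq V] (v : V) : Fm V → ℕ
  | var w => if w = v then 1 else 0
  | cst _ => 0
  | sp => 0
  | neg A => oc v A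
  | conj A B => oc v A + oc v B
  | disj A B => oc v A + oc v B

/-- the instances of the place holders -/
def inst : Fm V → List (Fm V)
  | var v => [var v]
  | cst b => [cst b]
  | sp => [cst true, cst false]
  | neg A => (inst A).map neg
  | conj A B => (inst A).flatMap (fun a => (inst B).map (conj a))
  | disj A B => (inst A).flatMap (fun a => (inst B).map (disj a))

theorem length_inst (A : Fm V) : (inst A).length = 2 ^ nsp A := by
  induction A with
  | var v => rfl
  | cst b => rfl
  | sp => rfl
  | neg A ih => simpa [inst, nsp] using ih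
  | conj A B iA iB => simp [inst, nsp, iA, iB, pow_add, List.length_flatMap]
  | disj A B iA iB => simp [inst, nsp, iA, iB, pow_add, List.length_flatMap]

theorem lv_inst (A : Fm V) : ∀ c ∈ inst A, lv c = lv A := by
  induction A with
  | var v => simp [inst]
  | cst b => simp [inst]
  | sp => simp [inst, lv]
  | neg A ih =>
    intro c hc
    simp only [inst, List.mem_map] at hc
    obtain ⟨a, ha, rfl⟩ := hc
    exact ih a ha
  | conj A B iA iB =>
    intro c hc
    simp only [inst, List.mem_flatMap, List.mem_map] at hc
    obtain ⟨a, ha, b, hb, rfl⟩ := hc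
    simp only [lv, iA a ha, iB b hb]
  | disj A B iA iB =>
    intro c hc
    simp only [inst, List.mem_flatMap, List.mem_map] at hc
    obtain ⟨a, ha, b, hb, rfl⟩ := hc
    simp only [lv, iA a ha, iB b hb]

theorem oc_inst [DecidableEq V] (v : V) (A : Fm V) : ∀ c ∈ inst A, oc v c = oc v A := by
  induction A with
  | var w => simp [inst]
  | cst b => simp [inst]
  | sp => simp [inst, oc]
  | neg A ih =>
    intro c hc
    simp only [inst, List.mem_map] at hc
    obtain ⟨a, ha, rfl⟩ := hc
    exact ih a ha
  | conj A B iA iB =>
    intro c hc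
    simp only [inst, List.mem_flatMap, List.mem_map] at hc
    obtain ⟨a, ha, b, hb, rfl⟩ := hc
    simp only [oc, iA a ha, iB b hb]
  | disj A B iA iB =>
    intro c hc
    simp only [inst, List.mem_flatMap, List.mem_map] at hc
    obtain ⟨a, ha, b, hb, rfl⟩ := hc
    simp only [oc, iA a ha, iB b hb]

/-- the value depends only on the variables which occur -/
theorem ev_congr [DecidableEq V] {a b : V → Bool} (A : Fm V)
    (h : ∀ v, 0 < oc v A → a v = b v) : ev a A = ev b A := by
  induction A with
  | var v => exact h v (by simp [oc])
  | cst b => rfl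
  | sp => rfl
  | neg A ih => simp only [ev, ih h]
  | conj A B iA iB =>
    simp only [ev]
    rw [iA (fun v hv => h v (by simp only [oc]; omega)),
      iB (fun v hv => h v (by simp only [oc]; omega))]
  | disj A B iA iB =>
    simp only [ev]
    rw [iA (fun v hv => h v (by simp only [oc]; omega)),
      iB (fun v hv => h v (by simp only [oc]; omega))]

theorem sum_oc [DecidableEq V] [Fintype V] (A : Fm V) : ∑ v, oc v A = lv A := by
  induction A with
  | var w => simp [oc, lv]
  | cst b => simp [oc, lv]
  | sp => simp [oc, lv]
  | neg A ih => simpa [oc, lv] using ih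
  | conj A B iA iB => simp [oc, lv, Finset.sum_add_distrib, iA, iB]
  | disj A B iA iB => simp [oc, lv, Finset.sum_add_distrib, iA, iB]

end Fm

/-! ### Khrapchenko -/

section khr

variable [DecidableEq V]

/-- flip one bit -/
def flip (a : V → Bool) (v : V) : V → Bool := Function.update a v (!(a v))

theorem flip_self (a : V → Bool) (v : V) : flip a v v = !(a v) := by simp [flip]

theorem flip_ne (a : V → Bool) {v w : V} (h : w ≠ v) : flip a v w = a w := by simp [flip, h]

theorem flip_flip (a : V → Bool) (v : V) : flip (flip a v) v = a := by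
  funext w
  by_cases h : w = v
  · subst h; simp [flip_self]
  · simp [flip_ne _ h]

variable [Fintype V]

/-- number of pairs of neighbours -/
def nb (A B : Finset (V → Bool)) : ℕ := ∑ a ∈ A, (univ.filter (fun v => flip a v ∈ B)).card

theorem nb_union_left {A A' B : Finset (V → Bool)} (h : Disjoint A A') :
    nb (A ∪ A') B = nb A B + nb A' B := by
  unfold nb
  exact Finset.sum_union h

theorem nb_union_right {A B B' : Finset (V → Bool)} (h : Disjoint B B') :
    nb A (B ∪ B') = nb A B + nb A B' := by
  unfold nb
  rw [← Finset.sum_add_distrib]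
  refine Finset.sum_congr rfl fun a _ => ?_
  rw [← Finset.card_union_of_disjoint]
  · congr 1
    ext v
    simp
  · rw [Finset.disjoint_filter]
    intro v _ h1 h2
    exact (Finset.disjoint_left.mp h) h1 h2

theorem cs_aux {e1 e2 l1 l2 x1 x2 y : ℕ} (h1 : e1 ^ 2 ≤ l1 * (x1 * y))
    (h2 : e2 ^ 2 ≤ l2 * (x2 * y)) : (e1 + e2) ^ 2 ≤ (l1 + l2) * ((x1 + x2) * y) := by
  have h3 : (e1 * e2) ^ 2 ≤ (l1 * (x2 * y)) * (l2 * (x1 * y)) := by
    calc (e1 * e2) ^ 2 = e1 ^ 2 * e2 ^ 2 := by ring
      _ ≤ (l1 * (x1 * y)) * (l2 * (x2 * y)) := Nat.mul_le_mul h1 h2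
      _ = _ := by ring
  have h4 : 2 * (e1 * e2) ≤ l1 * (x2 * y) + l2 * (x1 * y) := by
    have h5 : (2 * (e1 * e2)) ^ 2 ≤ (l1 * (x2 * y) + l2 * (x1 * y)) ^ 2 := by
      have h6 : 4 * ((l1 * (x2 * y)) * (l2 * (x1 * y))) ≤
          (l1 * (x2 * y) + l2 * (x1 * y)) ^ 2 := by
        generalize l1 * (x2 * y) = p
        generalize l2 * (x1 * y) = r
        zify
        nlinarith [sq_nonneg ((p : ℤ) - r)]
      calc (2 * (e1 * e2)) ^ 2 = 4 * (e1 * e2) ^ 2 := by ring
        _ ≤ _ := (Nat.mul_le_mul_left 4 h3).trans h6
    exact (Nat.pow_le_pow_iff_left (by norm_num)).mp h5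
  nlinarith

theorem nb_le_left {A B : Finset (V → Bool)} {v : V}
    (h : ∀ a ∈ A, ∀ w, flip a w ∈ B → w = v) : nb A B ≤ A.card := by
  unfold nb
  calc ∑ a ∈ A, (univ.filter (fun v => flip a v ∈ B)).card ≤ ∑ a ∈ A, 1 := by
        refine Finset.sum_le_sum fun a ha => ?_
        rw [Finset.card_le_one]
        intro x hx y hy
        simp only [mem_filter, mem_univ, true_and] at hx hy
        rw [h a ha x hx, h a ha y hy]
    _ = A.card := by simp

theorem nb_le_right {A B : Finset (V → Bool)} {v : V}
    (h : ∀ a ∈ A, ∀ w, flip a w ∈ B → w = v) : nb A B ≤ B.card := by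
  have h1 : nb A B ≤ (A.filter (fun a => flip a v ∈ B)).card := by
    unfold nb
    rw [Finset.card_filter]
    refine Finset.sum_le_sum fun a ha => ?_
    by_cases hv : flip a v ∈ B
    · rw [if_pos hv, Finset.card_le_one]
      intro x hx y hy
      simp only [mem_filter, mem_univ, true_and] at hx hy
      rw [h a ha x hx, h a ha y hy]
    · rw [if_neg hv, Nat.le_zero, Finset.card_eq_zero, Finset.filter_eq_empty_iff]
      intro w _ hw
      have := h a ha w hw
      subst this
      exact hv hw
  refine h1.trans ?_
  refine Finset.card_le_card_of_injOn (fun a => flip a v) ?_ ?_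
  · intro a ha
    exact (mem_filter.mp (Finset.mem_coe.mp ha)).2
  · intro a _ b _ hab
    have := congrArg (fun f => flip f v) hab
    simpa only [flip_flip] using this

theorem khr_leaf {A B : Finset (V → Bool)} {v : V}
    (h : ∀ a ∈ A, ∀ w, flip a w ∈ B → w = v) : nb A B ^ 2 ≤ A.card * B.card := by
  rw [sq]
  exact Nat.mul_le_mul (nb_le_left h) (nb_le_right h)

theorem nb_empty_left {B : Finset (V → Bool)} : nb ∅ B = 0 := by simp [nb]

theorem nb_empty_right {A : Finset (V → Bool)} : nb A ∅ = 0 := by simp [nb]

theorem khr (F : Fm V) : ∀ A B : Finset (V → Bool), ∀ t : Bool,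
    (∀ a ∈ A, F.ev a = t) → (∀ b ∈ B, F.ev b = !t) →
      nb A B ^ 2 ≤ F.lv * (A.card * B.card) := by
  induction F with
  | var v =>
    intro A B t hA hB
    simp only [Fm.lv, one_mul]
    refine khr_leaf (v := v) fun a ha w hw => ?_
    by_contra hne
    have h1 := hA a ha
    have h2 := hB _ hw
    simp only [Fm.ev] at h1 h2
    rw [flip_ne _ (Ne.symm hne), h1] at h2
    cases t <;> simp at h2
  | cst b =>
    intro A B t hA hB
    rcases A.eq_empty_or_nonempty with rfl | ⟨a, ha⟩
    · simp [nb_empty_left]
    · rcases B.eq_empty_or_nonempty with rfl | ⟨c, hc⟩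
      · simp [nb_empty_right]
      · have h1 := hA a ha
        have h2 := hB c hc
        simp only [Fm.ev] at h1 h2
        rw [h1] at h2
        cases t <;> simp at h2
  | sp =>
    intro A B t hA hB
    rcases A.eq_empty_or_nonempty with rfl | ⟨a, ha⟩
    · simp [nb_empty_left]
    · rcases B.eq_empty_or_nonempty with rfl | ⟨c, hc⟩
      · simp [nb_empty_right]
      · have h1 := hA a ha
        have h2 := hB c hc
        simp only [Fm.ev] at h1 h2
        rw [← h1] at h2
        simp at h2
  | neg G ih =>
    intro A B t hA hB
    refine ih A B (!t) (fun a ha => ?_) (fun b hb => ?_)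
    · have := hA a ha
      simp only [Fm.ev] at this
      rw [← this, Bool.not_not]
    · have := hB b hb
      simp only [Fm.ev] at this
      rw [Bool.not_not]
      exact Bool.not_inj this
  | conj G H iG iH =>
    intro A B t hA hB
    cases t with
    | false =>
      set A1 := A.filter (fun a => G.ev a = false) with hA1
      set A2 := A.filter (fun a => ¬ G.ev a = false) with hA2
      have hd : Disjoint A1 A2 := Finset.disjoint_filter_filter_not _ _ _
      have hu : A = A1 ∪ A2 := (Finset.filter_union_filter_not_eq _ _).symm
      have e1 : nb A B = nb A1 B + nb A2 B := by rw [hu, nb_union_left hd]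
      have e2 : A.card = A1.card + A2.card := by
        rw [hu, Finset.card_union_of_disjoint hd]
      rw [e1, e2]
      simp only [Fm.lv]
      refine cs_aux (iG A1 B false (fun a ha => ?_) (fun b hb => ?_))
        (iH A2 B false (fun a ha => ?_) (fun b hb => ?_))
      · exact (mem_filter.mp ha).2
      · have := hB b hb
        simp only [Fm.ev, Bool.not_false, Bool.and_eq_true] at this
        simpa using this.1
      · have h1 := hA a (mem_filter.mp ha).1
        have h2 := (mem_filter.mp ha).2
        simp only [Fm.ev] at h1
        have h3 : G.ev a = true := by simpa using h2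
        rw [h3, Bool.true_and] at h1
        exact h1
      · have := hB b hb
        simp only [Fm.ev, Bool.not_false, Bool.and_eq_true] at this
        simpa using this.2
    | true =>
      set B1 := B.filter (fun a => G.ev a = false) with hB1
      set B2 := B.filter (fun a => ¬ G.ev a = false) with hB2
      have hd : Disjoint B1 B2 := Finset.disjoint_filter_filter_not _ _ _
      have hu : B = B1 ∪ B2 := (Finset.filter_union_filter_not_eq _ _).symm
      have e1 : nb A B = nb A B1 + nb A B2 := by rw [hu, nb_union_right hd]
      have e2 : B.card = B1.card + B2.card := by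
        rw [hu, Finset.card_union_of_disjoint hd]
      rw [e1, e2, Nat.mul_comm A.card]
      simp only [Fm.lv]
      have g1 := iG A B1 true (fun a ha => ?_) (fun b hb => ?_)
      have g2 := iH A B2 true (fun a ha => ?_) (fun b hb => ?_)
      · rw [Nat.mul_comm A.card] at g1 g2
        exact cs_aux g1 g2
      · have := hA a ha
        simp only [Fm.ev, Bool.and_eq_true] at this
        exact this.2
      · have h1 := hB b (mem_filter.mp hb).1
        have h2 := (mem_filter.mp hb).2
        simp only [Fm.ev] at h1
        have h3 : G.ev b = true := by simpa using h2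
        rw [h3, Bool.true_and] at h1
        exact h1
      · have := hA a ha
        simp only [Fm.ev, Bool.and_eq_true] at this
        exact this.1
      · have h2 := (mem_filter.mp hb).2
        simpa using h2
  | disj G H iG iH =>
    intro A B t hA hB
    cases t with
    | true =>
      set A1 := A.filter (fun a => G.ev a = true) with hA1
      set A2 := A.filter (fun a => ¬ G.ev a = true) with hA2
      have hd : Disjoint A1 A2 := Finset.disjoint_filter_filter_not _ _ _
      have hu : A = A1 ∪ A2 := (Finset.filter_union_filter_not_eq _ _).symm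
      have e1 : nb A B = nb A1 B + nb A2 B := by rw [hu, nb_union_left hd]
      have e2 : A.card = A1.card + A2.card := by
        rw [hu, Finset.card_union_of_disjoint hd]
      rw [e1, e2]
      simp only [Fm.lv]
      refine cs_aux (iG A1 B true (fun a ha => ?_) (fun b hb => ?_))
        (iH A2 B true (fun a ha => ?_) (fun b hb => ?_))
      · exact (mem_filter.mp ha).2
      · have := hB b hb
        simp only [Fm.ev, Bool.not_true, Bool.or_eq_false_iff] at this
        simpa using this.1
      · have h1 := hA a (mem_filter.mp ha).1
        have h2 := (mem_filter.mp ha).2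
        simp only [Fm.ev] at h1
        have h3 : G.ev a = false := by simpa using h2
        rw [h3, Bool.false_or] at h1
        exact h1
      · have := hB b hb
        simp only [Fm.ev, Bool.not_true, Bool.or_eq_false_iff] at this
        simpa using this.2
    | false =>
      set B1 := B.filter (fun a => G.ev a = true) with hB1
      set B2 := B.filter (fun a => ¬ G.ev a = true) with hB2
      have hd : Disjoint B1 B2 := Finset.disjoint_filter_filter_not _ _ _
      have hu : B = B1 ∪ B2 := (Finset.filter_union_filter_not_eq _ _).symm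
      have e1 : nb A B = nb A B1 + nb A B2 := by rw [hu, nb_union_right hd]
      have e2 : B.card = B1.card + B2.card := by
        rw [hu, Finset.card_union_of_disjoint hd]
      rw [e1, e2, Nat.mul_comm A.card]
      simp only [Fm.lv]
      have g1 := iG A B1 false (fun a ha => ?_) (fun b hb => ?_)
      have g2 := iH A B2 false (fun a ha => ?_) (fun b hb => ?_)
      · rw [Nat.mul_comm A.card] at g1 g2
        exact cs_aux g1 g2
      · have := hA a ha
        simp only [Fm.ev, Bool.or_eq_false_iff] at this
        exact this.2
      · have h1 := hB b (mem_filter.mp hb).1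
        have h2 := (mem_filter.mp hb).2
        simp only [Fm.ev] at h1
        have h3 : G.ev b = false := by simpa using h2
        rw [h3, Bool.false_or] at h1
        exact h1
      · have := hA a ha
        simp only [Fm.ev, Bool.or_eq_false_iff] at this
        exact this.1
      · have h2 := (mem_filter.mp hb).2
        simpa using h2

/-- total influence -/
def infl (F : Fm V) : ℕ := ∑ a : V → Bool, (univ.filter (fun v => F.ev a ≠ F.ev (flip a v))).card

theorem infl_le (F : Fm V) :
    (infl F : ℝ) ≤ Real.sqrt F.lv * (Fintype.card (V → Bool) : ℝ) := by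
  set A : Finset (V → Bool) := univ.filter (fun a => F.ev a = false) with hA
  set B : Finset (V → Bool) := univ.filter (fun a => ¬ F.ev a = false) with hB
  have hcard : A.card + B.card = Fintype.card (V → Bool) := by
    rw [hA, hB, Finset.card_filter_add_card_filter_not, Finset.card_univ]
  have h1 : infl F = nb A B + nb B A := by
    unfold infl
    rw [← Finset.sum_filter_add_sum_filter_not univ (fun a : V → Bool => F.ev a = false)]
    congr 1
    · unfold nb
      refine Finset.sum_congr rfl fun a ha => ?_
      congr 1
      ext v
      rw [mem_filter] at ha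
      simp only [hB, mem_filter, mem_univ, true_and, ha.2]
      exact ⟨fun h h' => h h'.symm, fun h h' => h h'.symm⟩
    · unfold nb
      refine Finset.sum_congr rfl fun a ha => ?_
      congr 1
      ext v
      rw [mem_filter] at ha
      simp only [hA, mem_filter, mem_univ, true_and]
      have h3 : F.ev a = true := by simpa using ha.2
      rw [h3]
      cases F.ev (flip a v) <;> simp
  have k1 := khr F A B false (fun a ha => (mem_filter.mp ha).2)
    (fun b hb => by simpa using (mem_filter.mp hb).2)
  have k2 := khr F B A true (fun b hb => by simpa using (mem_filter.mp hb).2)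
    (fun a ha => by simpa using (mem_filter.mp ha).2)
  set N : ℝ := (Fintype.card (V → Bool) : ℝ) with hN
  have hsum : (A.card : ℝ) + B.card = N := by rw [hN, ← hcard]; push_cast; ring
  have hprod : (A.card : ℝ) * B.card ≤ (N / 2) ^ 2 := by
    rw [← hsum]
    nlinarith [sq_nonneg ((A.card : ℝ) - B.card)]
  have hN0 : 0 ≤ N := by rw [hN]; positivity
  have b1 : (nb A B : ℝ) ≤ Real.sqrt F.lv * (N / 2) := by
    have h2 : ((nb A B : ℝ)) ^ 2 ≤ (Real.sqrt F.lv * (N / 2)) ^ 2 := by
      rw [mul_pow, Real.sq_sqrt (Nat.cast_nonneg _)]
      have h3 : ((nb A B : ℝ)) ^ 2 ≤ F.lv * (A.card * B.card) := by exact_mod_cast k1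
      exact h3.trans (mul_le_mul_of_nonneg_left hprod (Nat.cast_nonneg _))
    exact (pow_le_pow_iff_left₀ (Nat.cast_nonneg _) (by positivity) (by norm_num)).mp h2
  have b2 : (nb B A : ℝ) ≤ Real.sqrt F.lv * (N / 2) := by
    have h2 : ((nb B A : ℝ)) ^ 2 ≤ (Real.sqrt F.lv * (N / 2)) ^ 2 := by
      rw [mul_pow, Real.sq_sqrt (Nat.cast_nonneg _)]
      have h3 : ((nb B A : ℝ)) ^ 2 ≤ F.lv * (B.card * A.card) := by exact_mod_cast k2
      rw [mul_comm (B.card : ℝ)] at h3
      exact h3.trans (mul_le_mul_of_nonneg_left hprod (Nat.cast_nonneg _))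
    exact (pow_le_pow_iff_left₀ (Nat.cast_nonneg _) (by positivity) (by norm_num)).mp h2
  rw [h1]
  push_cast
  linarith

end khr

end Pool.Agent.T9h49.RK
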