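import Pool.Agent.T9h49.RK.Meas

/-!
# Graphs with many edges at each set of medium size
-/

set_option autoImplicit false

namespace Pool.Agent.T9h49.RK

open Finset Classical

section

variable (N D : ℕ)

/-- edges: a cycle and `D` further edges for each vertex -/
abbrev Ed : Type := Fin (N + 1) ⊕ (Fin (N + 1) × Fin D)

variable {N D}

/-- the first end of an edge -/
def tl : Ed N D → Fin (N + 1)
  | .inl u => u
  | .inr p => p.1

/-- the second end of an edge -/
def hd (f : Fin (N + 1) × Fin D → Fin (N + 1)) : Ed N D → Fin (N + 1)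
  | .inl u => u + 1
  | .inr p => f p

/-- incidence; loops are not incident to their vertex -/
def Inc (f : Fin (N + 1) × Fin D → Fin (N + 1)) (v : Fin (N + 1)) (e : Ed N D) : Prop :=
  (v = tl e ∧ v ≠ hd f e) ∨ (v ≠ tl e ∧ v = hd f e)

theorem mem_bd (f : Fin (N + 1) × Fin D → Fin (N + 1)) (A : Finset (Fin (N + 1))) (e : Ed N D)
    (h1 : tl e ∈ A) (h2 : hd f e ∉ A) : e ∈ bd (Inc f) A := by
  have hne : tl e ≠ hd f e := fun h => h2 (h ▸ h1)
  simp only [bd, mem_filter, mem_univ, true_and]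
  rw [Finset.card_eq_one]
  refine ⟨tl e, ?_⟩
  ext v
  rw [mem_filter, mem_singleton]
  constructor
  · rintro ⟨hv, hv'⟩
    rcases hv' with ⟨h3, _⟩ | ⟨_, h4⟩
    · exact h3
    · exact absurd (h4 ▸ hv) h2
  · rintro rfl
    exact ⟨h1, Or.inl ⟨rfl, hne⟩⟩

theorem connected (f : Fin (N + 1) × Fin D → Fin (N + 1)) (A : Finset (Fin (N + 1)))
    (h1 : A.Nonempty) (h2 : A ≠ univ) : (bd (Inc f) A).Nonempty := by
  by_contra hcon
  rw [Finset.not_nonempty_iff_eq_empty] at hcon
  have h3 : ∀ u ∈ A, u + 1 ∈ A := by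
    intro u hu
    by_contra hn
    have : (Sum.inl u : Ed N D) ∈ bd (Inc f) A := mem_bd f A (Sum.inl u) hu hn
    rw [hcon] at this
    simp at this
  obtain ⟨u, hu⟩ := h1
  have h4 : ∀ k : ℕ, ∀ x : Fin (N + 1), (x - u).val = k → x ∈ A := by
    intro k
    induction k with
    | zero =>
      intro x hx
      have h5 : x - u = 0 := Fin.ext hx
      rw [sub_eq_zero] at h5
      rw [h5]
      exact hu
    | succ k ih =>
      intro x hx
      have h5 : (x - 1 - u).val = k := by
        have h6 : x - 1 - u = (x - u) - 1 := by rw [sub_right_comm]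
        rw [h6]
        have h7 : (x - u) ≠ 0 := by
          intro h
          rw [h] at hx
          simp at hx
        rw [Fin.coe_sub_one, if_neg h7, hx]
        rfl
      have h6 := h3 _ (ih _ h5)
      simpa using h6
  apply h2
  rw [Finset.eq_univ_iff_forall]
  intro x
  exact h4 _ x rfl

/-- the number of edges leaving `A` -/
noncomputable def outd (f : Fin (N + 1) × Fin D → Fin (N + 1)) (A : Finset (Fin (N + 1))) : ℕ :=
  (univ.filter (fun p : Fin (N + 1) × Fin D => p.1 ∈ A ∧ f p ∉ A)).card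

theorem outd_le (f : Fin (N + 1) × Fin D → Fin (N + 1)) (A : Finset (Fin (N + 1))) :
    outd f A ≤ (bd (Inc f) A).card := by
  unfold outd
  refine Finset.card_le_card_of_injOn (fun p => (Sum.inr p : Ed N D)) ?_ ?_
  · intro p hp
    have hp' := (mem_filter.mp (Finset.mem_coe.mp hp)).2
    exact mem_bd f A (Sum.inr p) hp'.1 hp'.2
  · intro p _ p' _ h
    exact Sum.inr_injective h

/-- in-degrees -/
noncomputable def indeg (f : Fin (N + 1) × Fin D → Fin (N + 1)) (v : Fin (N + 1)) : ℕ :=
  (univ.filter (fun p : Fin (N + 1) × Fin D => f p = v)).card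

/-- sum of products over all functions -/
theorem sum_prod (g : Fin (N + 1) × Fin D → Fin (N + 1) → ℝ) :
    ∑ f : Fin (N + 1) × Fin D → Fin (N + 1), ∏ p, g p (f p) = ∏ p, ∑ y, g p y := by
  rw [Finset.prod_univ_sum]
  simp

theorem weight_out (A : Finset (Fin (N + 1))) :
    ∑ f : Fin (N + 1) × Fin D → Fin (N + 1), ((1 : ℝ) / 8) ^ outd f A =
      (A.card + (N + 1 - A.card) / 8 : ℝ) ^ (D * A.card) *
        ((N : ℝ) + 1) ^ (D * (N + 1 - A.card)) := by
  have h1 : ∀ f : Fin (N + 1) × Fin D → Fin (N + 1), ((1 : ℝ) / 8) ^ outd f A =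
      ∏ p, (if p.1 ∈ A then (if f p ∈ A then (1 : ℝ) else 1 / 8) else 1) := by
    intro f
    unfold outd
    rw [Finset.card_filter, ← Finset.prod_pow_eq_pow_sum]
    refine Finset.prod_congr rfl fun p _ => ?_
    by_cases h : p.1 ∈ A <;> by_cases h' : f p ∈ A <;> simp [h, h']
  rw [Finset.sum_congr rfl (fun f _ => h1 f),
    sum_prod (fun p y => if p.1 ∈ A then (if y ∈ A then (1 : ℝ) else 1 / 8) else 1)]
  have hc : A.card ≤ N + 1 := by
    have := Finset.card_le_univ A
    rwa [Fintype.card_fin] at this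
  obtain ⟨G, hG⟩ : ∃ G : Fin (N + 1) → ℝ, ∀ u, G u =
      if u ∈ A then (A.card + (N + 1 - A.card) / 8 : ℝ) else (N : ℝ) + 1 := ⟨_, fun _ => rfl⟩
  have h2 : ∀ p : Fin (N + 1) × Fin D,
      ∑ y, (if p.1 ∈ A then (if y ∈ A then (1 : ℝ) else 1 / 8) else 1) = G p.1 := by
    intro p
    rw [hG]
    by_cases h : p.1 ∈ A
    · simp only [h, if_true]
      rw [Finset.sum_ite]
      simp only [Finset.sum_const, nsmul_eq_mul, mul_one]
      have e1 : (univ.filter (fun y => y ∈ A)) = A := by ext y; simp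
      have e2 : ((univ.filter (fun y => y ∉ A)).card : ℝ) = N + 1 - A.card := by
        have : (univ.filter (fun y => y ∉ A)) = Aᶜ := by ext y; simp
        rw [this, Finset.card_compl, Fintype.card_fin, Nat.cast_sub hc]
        push_cast
        ring
      rw [e1, e2]
      ring
    · simp only [h, if_false]
      simp
  rw [Finset.prod_congr rfl (fun p _ => h2 p), Fintype.prod_prod_type]
  simp only [Finset.prod_const, Finset.card_univ, Fintype.card_fin]
  rw [Finset.prod_pow, Finset.prod_congr rfl (fun u _ => hG u), Finset.prod_ite]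
  simp only [Finset.prod_const]
  have e1 : (univ.filter (fun y => y ∈ A)) = A := by ext y; simp
  have e2 : (univ.filter (fun y => y ∉ A)).card = N + 1 - A.card := by
    have : (univ.filter (fun y => y ∉ A)) = Aᶜ := by ext y; simp
    rw [this, Finset.card_compl, Fintype.card_fin]
  rw [e1, e2, mul_pow, ← pow_mul, ← pow_mul, Nat.mul_comm D, Nat.mul_comm D]

theorem weight_in (B : ℝ) (v : Fin (N + 1)) :
    ∑ f : Fin (N + 1) × Fin D → Fin (N + 1), B ^ indeg f v =
      ((N : ℝ) + B) ^ ((N + 1) * D) := by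
  have h1 : ∀ f : Fin (N + 1) × Fin D → Fin (N + 1), B ^ indeg f v =
      ∏ p, (if f p = v then B else 1) := by
    intro f
    unfold indeg
    rw [Finset.card_filter, ← Finset.prod_pow_eq_pow_sum]
    refine Finset.prod_congr rfl fun p _ => ?_
    by_cases h' : f p = v <;> simp [h']
  rw [Finset.sum_congr rfl (fun f _ => h1 f), sum_prod (fun p y => if y = v then B else 1)]
  have h2 : ∀ p : Fin (N + 1) × Fin D, ∑ y, (if y = v then B else 1) = (N : ℝ) + B := by
    intro p
    rw [← Finset.add_sum_erase univ _ (mem_univ v), if_pos rfl,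
      Finset.sum_congr rfl (fun y hy => if_neg (Finset.ne_of_mem_erase hy))]
    simp
    ring
  rw [Finset.prod_congr rfl (fun p _ => h2 p)]
  simp [Fintype.card_prod]

/-- few functions have few edges leaving `A` -/
theorem bad_out (r : ℕ) (A : Finset (Fin (N + 1))) (h1 : N + 1 < 2 * r * A.card)
    (h2 : 2 * A.card ≤ N + 1) :
    ((univ.filter (fun f : Fin (N + 1) × Fin (16 * r) → Fin (N + 1) =>
      outd f A < N + 1)).card : ℝ) ≤
      ((1 : ℝ) / 12) ^ (N + 1) * ((N : ℝ) + 1) ^ (16 * r * (N + 1)) := by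
  set a := A.card with ha
  set U := univ.filter (fun f : Fin (N + 1) × Fin (16 * r) → Fin (N + 1) =>
      outd f A < N + 1) with hU
  have hw := weight_out (N := N) (D := 16 * r) A
  rw [← ha] at hw
  have hn0 : (0 : ℝ) < (N : ℝ) + 1 := by positivity
  have ha' : (2 : ℝ) * a ≤ N + 1 := by exact_mod_cast h2
  have ha0 : (0 : ℝ) ≤ a := Nat.cast_nonneg _
  have h3 : (U.card : ℝ) * ((1 : ℝ) / 8) ^ (2 * r * a) ≤
      ∑ f : Fin (N + 1) × Fin (16 * r) → Fin (N + 1), ((1 : ℝ) / 8) ^ outd f A := by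
    calc (U.card : ℝ) * ((1 : ℝ) / 8) ^ (2 * r * a) =
        ∑ f ∈ U, ((1 : ℝ) / 8) ^ (2 * r * a) := by rw [Finset.sum_const, nsmul_eq_mul]
      _ ≤ ∑ f ∈ U, ((1 : ℝ) / 8) ^ outd f A := by
          refine Finset.sum_le_sum fun f hf => ?_
          have h4 := (mem_filter.mp hf).2
          exact pow_le_pow_of_le_one (by norm_num) (by norm_num) (by omega)
      _ ≤ _ := Finset.sum_le_sum_of_subset_of_nonneg (subset_univ _)
          (fun _ _ _ => by positivity)
  rw [hw] at h3
  have h4 : ((a : ℝ) + (N + 1 - a) / 8) ^ (16 * r * a) ≤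
      (9 / 16 * ((N : ℝ) + 1)) ^ (16 * r * a) := by
    refine pow_le_pow_left₀ ?_ ?_ _
    · have : (0 : ℝ) ≤ N + 1 - a := by linarith
      positivity
    · linarith
  have h5 : (9 / 16 * ((N : ℝ) + 1)) ^ (16 * r * a) * ((N : ℝ) + 1) ^ (16 * r * (N + 1 - a)) =
      ((9 / 16 : ℝ) ^ 8) ^ (2 * r * a) * ((N : ℝ) + 1) ^ (16 * r * (N + 1)) := by
    rw [mul_pow, mul_assoc, ← pow_add, ← pow_mul]
    congr 2
    · ring
    · rw [← Nat.mul_add]
      congr 1
      omega
  have h6 : (U.card : ℝ) * ((1 : ℝ) / 8) ^ (2 * r * a) ≤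
      ((9 / 16 : ℝ) ^ 8) ^ (2 * r * a) * ((N : ℝ) + 1) ^ (16 * r * (N + 1)) := by
    rw [← h5]
    exact h3.trans (mul_le_mul_of_nonneg_right h4 (by positivity))
  have h7 : (U.card : ℝ) ≤ (8 * (9 / 16 : ℝ) ^ 8) ^ (2 * r * a) *
      ((N : ℝ) + 1) ^ (16 * r * (N + 1)) := by
    have e1 : ((1 : ℝ) / 8) ^ (2 * r * a) * 8 ^ (2 * r * a) = 1 := by
      rw [← mul_pow]; norm_num
    calc (U.card : ℝ) = (U.card : ℝ) * ((1 : ℝ) / 8) ^ (2 * r * a) * 8 ^ (2 * r * a) := by
          rw [mul_assoc, e1, mul_one]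
      _ ≤ ((9 / 16 : ℝ) ^ 8) ^ (2 * r * a) * ((N : ℝ) + 1) ^ (16 * r * (N + 1)) *
          8 ^ (2 * r * a) := mul_le_mul_of_nonneg_right h6 (by positivity)
      _ = _ := by rw [mul_pow]; ring
  refine h7.trans (mul_le_mul_of_nonneg_right ?_ (by positivity))
  calc (8 * (9 / 16 : ℝ) ^ 8) ^ (2 * r * a) ≤ ((1 : ℝ) / 12) ^ (2 * r * a) :=
        pow_le_pow_left₀ (by norm_num) (by norm_num) _
    _ ≤ ((1 : ℝ) / 12) ^ (N + 1) :=
        pow_le_pow_of_le_one (by norm_num) (by norm_num) h1.le

/-- existence of the graphs -/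
theorem exists_graph (r : ℕ) {B : ℝ} (hB : 1 ≤ B) :
    ∃ C : ℝ, 0 < C ∧ ∀ N : ℕ, ∃ f : Fin (N + 1) × Fin (16 * r) → Fin (N + 1),
      (∀ A : Finset (Fin (N + 1)), N + 1 < 2 * r * A.card → 2 * A.card ≤ N + 1 →
        N + 1 ≤ outd f A) ∧
      ∑ v, B ^ indeg f v ≤ C * ((N : ℝ) + 1) := by
  set D := 16 * r with hD
  refine ⟨2 * Real.exp (D * (B - 1)), by positivity, fun N => ?_⟩
  by_contra hcon
  push Not at hcon
  set n : ℝ := (N : ℝ) + 1 with hn
  have hn0 : 0 < n := by positivity
  set T : ℝ := n ^ (D * (N + 1)) with hT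
  have hT0 : 0 < T := by positivity
  set X : Finset (Finset (Fin (N + 1))) :=
    univ.filter (fun A => N + 1 < 2 * r * A.card ∧ 2 * A.card ≤ N + 1) with hX
  set U1 : Finset (Fin (N + 1) × Fin D → Fin (N + 1)) :=
    X.biUnion (fun A => univ.filter (fun f => outd f A < N + 1)) with hU1
  set U2 : Finset (Fin (N + 1) × Fin D → Fin (N + 1)) :=
    univ.filter (fun f => 2 * Real.exp (D * (B - 1)) * n < ∑ v, B ^ indeg f v) with hU2
  have hcov : (univ : Finset (Fin (N + 1) × Fin D → Fin (N + 1))) ⊆ U1 ∪ U2 := by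
    intro f _
    rw [mem_union]
    by_cases h : ∀ A : Finset (Fin (N + 1)), N + 1 < 2 * r * A.card → 2 * A.card ≤ N + 1 →
        N + 1 ≤ outd f A
    · right
      simp only [hU2, mem_filter, mem_univ, true_and]
      exact hcon f h
    · left
      push Not at h
      obtain ⟨A, h1, h2, h3⟩ := h
      simp only [hU1, hX, mem_biUnion, mem_filter, mem_univ, true_and]
      exact ⟨A, ⟨h1, h2⟩, h3⟩
  have hcard : ((univ : Finset (Fin (N + 1) × Fin D → Fin (N + 1))).card : ℝ) = T := by
    rw [Finset.card_univ, Fintype.card_fun, Fintype.card_prod, Fintype.card_fin,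
      Fintype.card_fin, hT, hn, Nat.mul_comm (N + 1) D]
    push_cast
    ring
  have hb1 : (U1.card : ℝ) ≤ 1 / 6 * T := by
    calc (U1.card : ℝ) ≤ ∑ A ∈ X, ((univ.filter
          (fun f : Fin (N + 1) × Fin D → Fin (N + 1) => outd f A < N + 1)).card : ℝ) := by
          exact_mod_cast Finset.card_biUnion_le
      _ ≤ ∑ A ∈ X, (((1 : ℝ) / 12) ^ (N + 1) * T) := by
          refine Finset.sum_le_sum fun A hA => ?_
          simp only [hX, mem_filter, mem_univ, true_and] at hA
          exact bad_out r A hA.1 hA.2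
      _ = X.card * (((1 : ℝ) / 12) ^ (N + 1) * T) := by rw [Finset.sum_const, nsmul_eq_mul]
      _ ≤ (2 : ℝ) ^ (N + 1) * (((1 : ℝ) / 12) ^ (N + 1) * T) := by
          refine mul_le_mul_of_nonneg_right ?_ (by positivity)
          have h1 : X.card ≤ 2 ^ (N + 1) := by
            have := Finset.card_le_univ X
            rwa [Fintype.card_finset, Fintype.card_fin] at this
          exact_mod_cast h1
      _ = ((1 : ℝ) / 6) ^ (N + 1) * T := by
          rw [← mul_assoc, ← mul_pow]; norm_num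
      _ ≤ 1 / 6 * T := by
          refine mul_le_mul_of_nonneg_right ?_ hT0.le
          calc ((1 : ℝ) / 6) ^ (N + 1) ≤ ((1 : ℝ) / 6) ^ 1 :=
                pow_le_pow_of_le_one (by norm_num) (by norm_num) (by omega)
            _ = 1 / 6 := pow_one _
  have hb2 : (U2.card : ℝ) ≤ 1 / 2 * T := by
    have h1 : (U2.card : ℝ) * (2 * Real.exp (D * (B - 1)) * n) ≤
        n * (n ^ (D * (N + 1)) * Real.exp (D * (B - 1))) := by
      calc (U2.card : ℝ) * (2 * Real.exp (D * (B - 1)) * n) =
            ∑ f ∈ U2, (2 * Real.exp (D * (B - 1)) * n) := by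
            rw [Finset.sum_const, nsmul_eq_mul]
        _ ≤ ∑ f ∈ U2, ∑ v, B ^ indeg f v := by
            refine Finset.sum_le_sum fun f hf => ?_
            exact (mem_filter.mp hf).2.le
        _ ≤ ∑ f, ∑ v, B ^ indeg f v :=
            Finset.sum_le_sum_of_subset_of_nonneg (subset_univ _)
              (fun _ _ _ => Finset.sum_nonneg fun _ _ => by positivity)
        _ = ∑ v : Fin (N + 1), ((N : ℝ) + B) ^ ((N + 1) * D) := by
            rw [Finset.sum_comm]
            exact Finset.sum_congr rfl fun v _ => weight_in B v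
        _ = n * ((N : ℝ) + B) ^ ((N + 1) * D) := by
            rw [Finset.sum_const, nsmul_eq_mul, Finset.card_univ, Fintype.card_fin]
            push_cast
            rw [hn]
        _ ≤ n * (n ^ (D * (N + 1)) * Real.exp (D * (B - 1))) := by
            refine mul_le_mul_of_nonneg_left ?_ hn0.le
            have h2 : (N : ℝ) + B ≤ n * Real.exp ((B - 1) / n) := by
              have h3 := Real.add_one_le_exp ((B - 1) / n)
              calc (N : ℝ) + B = n * ((B - 1) / n + 1) := by
                    rw [hn]; field_simp; ring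
                _ ≤ _ := mul_le_mul_of_nonneg_left h3 hn0.le
            calc ((N : ℝ) + B) ^ ((N + 1) * D) ≤ (n * Real.exp ((B - 1) / n)) ^ ((N + 1) * D) :=
                  pow_le_pow_left₀ (by positivity) h2 _
              _ = n ^ (D * (N + 1)) * Real.exp (D * (B - 1)) := by
                  rw [mul_pow, ← Real.exp_nat_mul, Nat.mul_comm D]
                  congr 2
                  push_cast
                  rw [← hn]
                  field_simp
    have h2 : (U2.card : ℝ) * (2 * Real.exp (D * (B - 1)) * n) ≤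
        (1 / 2 * T) * (2 * Real.exp (D * (B - 1)) * n) := by
      refine h1.trans (le_of_eq ?_)
      rw [hT]
      ring
    exact le_of_mul_le_mul_right h2 (by positivity)
  have h1 : T ≤ 1 / 6 * T + 1 / 2 * T := by
    calc T = ((univ : Finset (Fin (N + 1) × Fin D → Fin (N + 1))).card : ℝ) := hcard.symm
      _ ≤ ((U1 ∪ U2).card : ℝ) := by exact_mod_cast Finset.card_le_card hcov
      _ ≤ (U1.card : ℝ) + U2.card := by exact_mod_cast Finset.card_union_le _ _
      _ ≤ _ := add_le_add hb1 hb2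
  linarith

end

end Pool.Agent.T9h49.RK
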