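import Pool.Agent.T9h49.RK.Line

/-!
# A bounded number of variables with many occurrences
-/

set_option autoImplicit false

namespace Pool.Agent.T9h49.RK

open Finset Classical

namespace Fm

variable {V : Type}

/-- the variables in `H` get the values given by `T` -/
noncomputable def setc (H T : Finset V) : Fm V → Fm V
  | var v => if v ∈ H then cst (decide (v ∈ T)) else var v
  | cst b => cst b
  | sp => sp
  | neg A => neg (setc H T A)
  | conj A B => conj (setc H T A) (setc H T B)
  | disj A B => disj (setc H T A) (setc H T B)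

theorem ev_setc (H T : Finset V) (x : V → Bool) (hx : ∀ v ∈ H, x v = decide (v ∈ T)) (A : Fm V) :
    (setc H T A).ev x = A.ev x := by
  induction A with
  | var v =>
    simp only [setc]
    split
    · rename_i h
      exact (hx v h).symm
    · rfl
  | cst b => rfl
  | sp => rfl
  | neg A ih => simp only [setc, ev, ih]
  | conj A B iA iB => simp only [setc, ev, iA, iB]
  | disj A B iA iB => simp only [setc, ev, iA, iB]

theorem nsp_setc (H T : Finset V) (A : Fm V) : (setc H T A).nsp = A.nsp := by
  induction A with
  | var v =>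
    simp only [setc]
    split <;> rfl
  | cst b => rfl
  | sp => rfl
  | neg A ih => simpa only [setc, nsp] using ih
  | conj A B iA iB => simp only [setc, nsp, iA, iB]
  | disj A B iA iB => simp only [setc, nsp, iA, iB]

theorem oc_setc [DecidableEq V] (H T : Finset V) (v : V) (A : Fm V) :
    (setc H T A).oc v = if v ∈ H then 0 else A.oc v := by
  induction A with
  | var w =>
    simp only [setc]
    by_cases h1 : w ∈ H
    · rw [if_pos h1]
      simp only [oc]
      split
      · rfl
      · rename_i h2
        rw [if_neg]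
        rintro rfl
        exact h2 h1
    · rw [if_neg h1]
      simp only [oc]
      by_cases h2 : v ∈ H
      · rw [if_pos h2, if_neg]
        rintro rfl
        exact h1 h2
      · rw [if_neg h2]
  | cst b => simp [setc, oc]
  | sp => simp [setc, oc]
  | neg A ih => simpa only [setc, oc] using ih
  | conj A B iA iB =>
    simp only [setc, oc, iA, iB]
    split <;> rfl
  | disj A B iA iB =>
    simp only [setc, oc, iA, iB]
    split <;> rfl

end Fm

section

variable {E : Type} {q : ℕ} [Fintype E]

theorem rel_card_heavy (L : Fm (E × Fin q)) (H : Finset (E × Fin q)) (w : Cf E q) :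
    (rel L w).card ≤ H.card + ∑ T ∈ H.powerset, (rel (Fm.setc H T L) w).card := by
  have h1 : rel L w ⊆ H.image Prod.fst ∪ H.powerset.biUnion (fun T => rel (Fm.setc H T L) w) := by
    intro e he
    rw [mem_union]
    by_cases h : (e, w.1 e) ∈ H
    · left
      exact mem_image.mpr ⟨_, h, rfl⟩
    · right
      obtain ⟨y, hy⟩ := mem_rel.mp he
      rw [mem_biUnion]
      refine ⟨H.filter (fun v => asg w y v = true), by simp, mem_rel.mpr ⟨y, ?_⟩⟩
      rw [Fm.ev_setc, Fm.ev_setc]
      · exact hy
      · intro v hv
        have h2 : asg w (flip y e) v = asg w y v := by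
          simp only [asg]
          split
          · rename_i h3
            rw [flip_ne]
            intro h4
            apply h
            have : v = (e, w.1 e) := Prod.ext h4 (by rw [← h3, h4])
            rw [← this]
            exact hv
          · rfl
        rw [h2]
        simp [hv]
      · intro v hv
        simp [hv]
  refine (Finset.card_le_card h1).trans ((Finset.card_union_le _ _).trans ?_)
  exact Nat.add_le_add Finset.card_image_le Finset.card_biUnion_le

end

/-- `line_bound` with `h` exceptional variables -/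
theorem line_bound_heavy (k h : ℕ) {c : ℝ} (hc : 0 < c) :
    ∃ q : ℕ, 0 < q ∧ ∃ δ : ℝ, 0 < δ ∧ ∃ C : ℝ, 0 < C ∧ ∃ n0 : ℕ,
      ∀ (E : Type) [Fintype E], n0 ≤ Fintype.card E → ∀ L : Fm (E × Fin q), L.nsp = 0 →
        (univ.filter (fun v => k < L.oc v)).card ≤ h →
        ((univ.filter (fun w : Cf E q => c * Fintype.card E ≤ ((rel L w).card : ℝ))).card : ℝ) ≤
          Fintype.card (Cf E q) * (C * Real.exp (-δ * Fintype.card E)) := by
  obtain ⟨q, hq, δ, hδ, C, hC, n0, hmain⟩ := line_bound k (c := c / 2 / 2 ^ h) (by positivity)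
  obtain ⟨n1, hn1⟩ := exists_nat_ge (2 * (h : ℝ) / c)
  refine ⟨q, hq, δ, hδ, 2 ^ h * C, by positivity, max n0 n1, ?_⟩
  intro E _ hE L hL hk
  set H : Finset (E × Fin q) := univ.filter (fun v => k < L.oc v) with hH
  set n : ℝ := (Fintype.card E : ℝ) with hn
  have hn0 : 0 ≤ n := Nat.cast_nonneg _
  have hnn : (h : ℝ) ≤ c / 2 * n := by
    rw [div_le_iff₀ hc] at hn1
    have h5 : (n1 : ℝ) ≤ n := by
      rw [hn]
      exact_mod_cast le_trans (le_max_right _ _) hE
    nlinarith
  have hcardP : H.powerset.card ≤ 2 ^ h := by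
    rw [Finset.card_powerset]
    exact Nat.pow_le_pow_right (by norm_num) hk
  have h1 : (univ.filter (fun w : Cf E q => c * n ≤ ((rel L w).card : ℝ))) ⊆
      H.powerset.biUnion (fun T => univ.filter (fun w : Cf E q => c / 2 / 2 ^ h * n ≤
        ((rel (Fm.setc H T L) w).card : ℝ))) := by
    intro w hw
    simp only [mem_filter, mem_univ, true_and] at hw
    simp only [mem_biUnion, mem_filter, mem_univ, true_and]
    by_contra hcon
    push Not at hcon
    have h2 : ((rel L w).card : ℝ) ≤ H.card +
        ∑ T ∈ H.powerset, ((rel (Fm.setc H T L) w).card : ℝ) := by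
      exact_mod_cast rel_card_heavy L H w
    have h3 : ∑ T ∈ H.powerset, ((rel (Fm.setc H T L) w).card : ℝ) <
        ∑ T ∈ H.powerset, (c / 2 / 2 ^ h * n) :=
      Finset.sum_lt_sum_of_nonempty ⟨∅, by simp⟩ (fun T hT => hcon T hT)
    rw [Finset.sum_const, nsmul_eq_mul] at h3
    have h4 : (H.powerset.card : ℝ) * (c / 2 / 2 ^ h * n) ≤ c / 2 * n := by
      have h5 : (H.powerset.card : ℝ) ≤ 2 ^ h := by exact_mod_cast hcardP
      calc (H.powerset.card : ℝ) * (c / 2 / 2 ^ h * n) ≤ 2 ^ h * (c / 2 / 2 ^ h * n) :=
            mul_le_mul_of_nonneg_right h5 (by positivity)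
        _ = c / 2 * n := by field_simp
    have h5 : (H.card : ℝ) ≤ h := by exact_mod_cast hk
    linarith
  calc ((univ.filter (fun w : Cf E q => c * n ≤ ((rel L w).card : ℝ))).card : ℝ)
      ≤ ((H.powerset.biUnion (fun T => univ.filter (fun w : Cf E q => c / 2 / 2 ^ h * n ≤
        ((rel (Fm.setc H T L) w).card : ℝ)))).card : ℝ) := by
        exact_mod_cast Finset.card_le_card h1
    _ ≤ ∑ T ∈ H.powerset, ((univ.filter (fun w : Cf E q => c / 2 / 2 ^ h * n ≤
        ((rel (Fm.setc H T L) w).card : ℝ))).card : ℝ) := by
        exact_mod_cast Finset.card_biUnion_le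
    _ ≤ ∑ T ∈ H.powerset, (Fintype.card (Cf E q) * (C * Real.exp (-δ * n))) := by
        refine Finset.sum_le_sum fun T _ => ?_
        refine hmain E (le_trans (le_max_left _ _) hE) _ (by rw [Fm.nsp_setc, hL]) fun v => ?_
        rw [Fm.oc_setc]
        split
        · exact Nat.zero_le _
        · rename_i hv
          rw [hH, mem_filter, not_and] at hv
          exact not_lt.mp (hv (mem_univ v))
    _ = H.powerset.card * (Fintype.card (Cf E q) * (C * Real.exp (-δ * n))) := by
        rw [Finset.sum_const, nsmul_eq_mul]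
    _ ≤ 2 ^ h * (Fintype.card (Cf E q) * (C * Real.exp (-δ * n))) := by
        refine mul_le_mul_of_nonneg_right ?_ (by positivity)
        exact_mod_cast hcardP
    _ = _ := by ring

end Pool.Agent.T9h49.RK
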