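import Pool.Agent.T9h49.RK.Piece

/-!
# The relevant blocks of a formula with few occurrences of each variable
-/

set_option autoImplicit false

namespace Pool.Agent.T9h49.RK

open Finset Classical

section

variable {E : Type} {q : ℕ} [Fintype E]

theorem lv_le_wt {V : Type} (c : Fm V) : c.lv ≤ c.wt := by simp [Fm.wt]

theorem sum_getElem {α : Type} (L : List α) (f : α → ℕ) :
    ∑ i : Fin L.length, f L[i.1] = (L.map f).sum := Fin.sum_univ_fun_getElem L f

/-- each piece meets few other pieces -/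
theorem conflicts (k l : ℕ) (hl : 2 ≤ l) (L : Fm (E × Fin q)) (hk : ∀ v, L.oc v ≤ k)
    (P : List (Fm (E × Fin q))) (hP : P = Fm.pieces l L) (i : Fin P.length) :
    (univ.filter (fun j : Fin P.length => ¬ Disjoint (blk P[i.1]) (blk P[j.1]))).card ≤
        2 * l * (q * k) := by
  have h1 : univ.filter (fun j : Fin P.length => ¬ Disjoint (blk P[i.1]) (blk P[j.1])) ⊆
      (blk P[i.1]).biUnion (fun e => univ.filter (fun j : Fin P.length => e ∈ blk P[j.1])) := by
    intro j hj
    simp only [mem_filter, mem_univ, true_and] at hj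
    rw [Finset.not_disjoint_iff] at hj
    obtain ⟨e, he, he'⟩ := hj
    simp only [mem_biUnion, mem_filter, mem_univ, true_and]
    exact ⟨e, he, he'⟩
  have h2 : ∀ e : E, (univ.filter (fun j : Fin P.length => e ∈ blk P[j.1])).card ≤ q * k := by
    intro e
    calc (univ.filter (fun j : Fin P.length => e ∈ blk P[j.1])).card
        = ∑ j ∈ univ.filter (fun j : Fin P.length => e ∈ blk P[j.1]), 1 := by simp
      _ ≤ ∑ j ∈ univ.filter (fun j : Fin P.length => e ∈ blk P[j.1]),
          ∑ a : Fin q, (P[j.1]).oc (e, a) := by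
          refine Finset.sum_le_sum fun j hj => ?_
          simp only [mem_filter, mem_univ, true_and] at hj
          obtain ⟨a, ha⟩ := mem_blk.mp hj
          exact le_trans ha (Finset.single_le_sum (f := fun a => (P[j.1]).oc (e, a))
            (fun _ _ => Nat.zero_le _) (mem_univ a))
      _ ≤ ∑ j : Fin P.length, ∑ a : Fin q, (P[j.1]).oc (e, a) :=
          Finset.sum_le_sum_of_subset_of_nonneg (subset_univ _) (fun _ _ _ => Nat.zero_le _)
      _ = ∑ a : Fin q, L.oc (e, a) := by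
          rw [Finset.sum_comm]
          refine Finset.sum_congr rfl fun a _ => ?_
          rw [sum_getElem P (fun c => c.oc (e, a)), hP]
          exact Fm.pieces_oc (e, a) l L
      _ ≤ ∑ a : Fin q, k := Finset.sum_le_sum fun a _ => hk _
      _ = q * k := by simp
  have h3 : (blk P[i.1]).card ≤ 2 * l := by
    have h4 := Fm.pieces_wt hl L P[i.1] (by rw [← hP]; exact List.getElem_mem _)
    exact (card_blk_le _).trans ((lv_le_wt _).trans h4.le)
  calc _ ≤ _ := Finset.card_le_card h1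
    _ ≤ ∑ e ∈ blk P[i.1], (univ.filter (fun j : Fin P.length => e ∈ blk P[j.1])).card :=
        Finset.card_biUnion_le
    _ ≤ ∑ e ∈ blk P[i.1], q * k := Finset.sum_le_sum fun e _ => h2 e
    _ = (blk P[i.1]).card * (q * k) := by simp
    _ ≤ 2 * l * (q * k) := Nat.mul_le_mul_right _ h3

/-- the constant in the bound for the expectation -/
noncomputable def KK (m l q : ℕ) : ℝ :=
  2 ^ m * Real.sqrt (2 * l) + 4 * (l : ℝ) ^ 2 / q + 2 * l / m

/-- the tail bound for one line -/
theorem line_tail (k m l : ℕ) (hq : 0 < q) (hl : 2 ≤ l) (hm : 0 < m) (L : Fm (E × Fin q))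
    (hL : L.nsp = 0) (hk : ∀ v, L.oc v ≤ k) (τ R : ℝ)
    (hR : 3 * (((k * (Fintype.card E) * q / (l - 1 : ℝ)) + 1) * (KK m l q / q)) +
      ((2 * l * (q * k) : ℕ) + 1) * τ ≤ R) :
    ((univ.filter (fun w : Cf E q => R ≤ ((rel L w).card : ℝ))).card : ℝ) ≤
      Fintype.card (Cf E q) * (((2 * l * (q * k) : ℕ) + 1) *
        Real.exp (-τ / ((2 * l : ℕ) : ℝ))) := by
  have hq0 : (0 : ℝ) < q := by exact_mod_cast hq
  have hm0 : (0 : ℝ) < m := by exact_mod_cast hm
  have hl1 : (0 : ℝ) < (l : ℝ) - 1 := by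
    have : (2 : ℝ) ≤ l := by exact_mod_cast hl
    linarith
  set P := Fm.pieces l L with hP
  have hwt : ∀ i : Fin P.length, (P[i.1]).lv ≤ 2 * l := fun i =>
    (lv_le_wt _).trans (Fm.pieces_wt hl L P[i.1] (List.getElem_mem _)).le
  set good : ℝ := 2 ^ m * Real.sqrt (2 * l) / q + (2 * l : ℝ) ^ 2 / q ^ 2 with hgood
  set badv : ℝ := 2 * l / q with hbadv
  have hgood0 : 0 ≤ good := by positivity
  have hbad0 : 0 ≤ badv := by positivity
  set a : Fin P.length → ℝ := fun i => if (P[i.1]).nsp ≤ m then good else badv with ha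
  have hcf : 0 < Fintype.card (Cf E q) := by
    have : Nonempty (Fin q) := ⟨⟨0, hq⟩⟩
    exact Fintype.card_pos
  have key := tail (fun (i : Fin P.length) w => (relP P[i.1] w).card) (fun i => blk P[i.1])
    (fun i => relP_dep P[i.1]) a (fun i => by rw [ha]; simp only []; split <;> assumption)
    (M := 2 * l) (by omega)
    (fun i w => (card_relP_le P[i.1] w).trans (hwt i)) hcf (by
      intro i
      rw [ha]
      simp only []
      have hlv : ((P[i.1]).lv : ℝ) ≤ 2 * l := by exact_mod_cast hwt i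
      split
      · rename_i h
        refine (exp_relP hq P[i.1]).trans (mul_le_mul_of_nonneg_right ?_ (Nat.cast_nonneg _))
        rw [hgood]
        refine add_le_add ?_ ?_
        · refine div_le_div_of_nonneg_right ?_ hq0.le
          refine mul_le_mul (pow_le_pow_right₀ (by norm_num) h) (Real.sqrt_le_sqrt hlv)
            (Real.sqrt_nonneg _) (by positivity)
        · refine div_le_div_of_nonneg_right ?_ (by positivity)
          exact pow_le_pow_left₀ (Nat.cast_nonneg _) hlv 2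
      · refine (exp_relP' hq P[i.1]).trans (mul_le_mul_of_nonneg_right ?_ (Nat.cast_nonneg _))
        exact div_le_div_of_nonneg_right hlv hq0.le)
    (2 * l * (q * k)) (conflicts k l hl L hk P hP) τ
  -- the sum of the expectations
  have hnsp : (∑ i : Fin P.length, ((P[i.1]).nsp : ℝ)) ≤ P.length := by
    have h1 := Fm.pieces_nsp l L hL
    have h2 := sum_getElem P Fm.nsp
    rw [← hP, ← h2] at h1
    have h3 : (∑ i : Fin P.length, (P[i.1]).nsp) ≤ P.length := by omega
    exact_mod_cast h3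
  have hbadcount : ((univ.filter (fun i : Fin P.length => ¬ (P[i.1]).nsp ≤ m)).card : ℝ) * m ≤
      P.length := by
    refine le_trans ?_ hnsp
    calc ((univ.filter (fun i : Fin P.length => ¬ (P[i.1]).nsp ≤ m)).card : ℝ) * m
        = ∑ i ∈ univ.filter (fun i : Fin P.length => ¬ (P[i.1]).nsp ≤ m), (m : ℝ) := by
          rw [Finset.sum_const, nsmul_eq_mul]
      _ ≤ ∑ i ∈ univ.filter (fun i : Fin P.length => ¬ (P[i.1]).nsp ≤ m), ((P[i.1]).nsp : ℝ) := by
          refine Finset.sum_le_sum fun i hi => ?_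
          simp only [mem_filter, mem_univ, true_and, not_le] at hi
          exact_mod_cast hi.le
      _ ≤ _ := Finset.sum_le_sum_of_subset_of_nonneg (subset_univ _)
          (fun _ _ _ => Nat.cast_nonneg _)
  have hsum : ∑ i, a i ≤ P.length * (KK m l q / q) := by
    rw [ha, ← Finset.sum_filter_add_sum_filter_not univ (fun i : Fin P.length => (P[i.1]).nsp ≤ m)]
    have s1 : ∑ i ∈ univ.filter (fun i : Fin P.length => (P[i.1]).nsp ≤ m),
        (if (P[i.1]).nsp ≤ m then good else badv) ≤ P.length * good := by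
      rw [Finset.sum_congr rfl (fun i hi => if_pos (mem_filter.mp hi).2), Finset.sum_const,
        nsmul_eq_mul]
      refine mul_le_mul_of_nonneg_right ?_ hgood0
      have := Finset.card_le_univ (univ.filter (fun i : Fin P.length => (P[i.1]).nsp ≤ m))
      rw [Fintype.card_fin] at this
      exact_mod_cast this
    have s2 : ∑ i ∈ univ.filter (fun i : Fin P.length => ¬ (P[i.1]).nsp ≤ m),
        (if (P[i.1]).nsp ≤ m then good else badv) ≤ P.length / m * badv := by
      rw [Finset.sum_congr rfl (fun i hi => if_neg (mem_filter.mp hi).2), Finset.sum_const,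
        nsmul_eq_mul]
      refine mul_le_mul_of_nonneg_right ?_ hbad0
      rw [le_div_iff₀ hm0]
      exact hbadcount
    refine (add_le_add s1 s2).trans (le_of_eq ?_)
    rw [hgood, hbadv, KK]
    field_simp
    ring
  have hlen : (P.length : ℝ) ≤ (k * (Fintype.card E) * q / (l - 1 : ℝ)) + 1 := by
    have h1 := Fm.pieces_length hl L hL
    rw [← hP] at h1
    have h2 : L.lv ≤ k * Fintype.card E * q := by
      rw [← Fm.sum_oc L]
      calc ∑ v, L.oc v ≤ ∑ v : E × Fin q, k := Finset.sum_le_sum fun v _ => hk v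
        _ = k * Fintype.card E * q := by
            simp [Fintype.card_prod]
            ring
    have h3 : 1 ≤ P.length := by rw [hP]; simp [Fm.pieces]
    have h4 : ((P.length : ℝ) - 1) * ((l : ℝ) - 1) ≤ k * Fintype.card E * q := by
      have h5 := h1.trans h2
      have h6 : (((P.length - 1) * (l - 1) : ℕ) : ℝ) ≤ ((k * Fintype.card E * q : ℕ) : ℝ) := by
        exact_mod_cast h5
      rw [Nat.cast_mul, Nat.cast_sub h3, Nat.cast_sub (by omega : 1 ≤ l)] at h6
      push_cast at h6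
      exact h6
    rw [← sub_le_iff_le_add, le_div_iff₀ hl1]
    exact h4
  have hKK : 0 ≤ KK m l q / q := by unfold KK; positivity
  refine le_trans ?_ key
  rw [Nat.cast_le]
  refine Finset.card_le_card fun w hw => ?_
  simp only [mem_filter, mem_univ, true_and] at hw ⊢
  have h1 : ((rel L w).card : ℝ) ≤ ∑ i : Fin P.length, ((relP P[i.1] w).card : ℝ) := by
    exact_mod_cast rel_card_le l L w
  refine le_trans ?_ (hw.trans h1)
  refine le_trans ?_ hR
  refine add_le_add_left ?_ _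
  refine mul_le_mul_of_nonneg_left ?_ (by norm_num)
  exact hsum.trans (mul_le_mul_of_nonneg_right hlen hKK)

/-- the parameters -/
theorem exists_param (k : ℕ) {c : ℝ} (hc : 0 < c) :
    ∃ m l q : ℕ, 0 < m ∧ 2 ≤ l ∧ 0 < q ∧ 3 * (k / (l - 1 : ℝ) * KK m l q) ≤ 3 / 8 * c := by
  obtain ⟨m, hm⟩ := exists_nat_ge (96 * (k + 1 : ℝ) / c)
  have hm0 : (0 : ℝ) < m := lt_of_lt_of_le (by positivity) hm
  obtain ⟨r, hr⟩ := exists_nat_ge (72 * (k + 1 : ℝ) * 2 ^ m / c)
  have hr0 : (0 : ℝ) < r := lt_of_lt_of_le (by positivity) hr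
  set l : ℕ := r ^ 2 + 1 with hl
  have hl2 : 2 ≤ l := by
    have : 0 < r := by exact_mod_cast hr0
    have : 0 < r ^ 2 := by positivity
    omega
  obtain ⟨q, hq⟩ := exists_nat_ge (192 * (k + 1 : ℝ) * l / c)
  have hl0 : (0 : ℝ) < l := by
    have : 0 < l := by omega
    exact_mod_cast this
  have hq0 : (0 : ℝ) < q := lt_of_lt_of_le (by positivity) hq
  refine ⟨m, l, q, by exact_mod_cast hm0, hl2, by exact_mod_cast hq0, ?_⟩
  have e1 : (l : ℝ) - 1 = r ^ 2 := by rw [hl]; push_cast; ring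
  have hl' : (l : ℝ) ≤ 2 * r ^ 2 := by
    rw [← e1]
    have : (2 : ℝ) ≤ l := by exact_mod_cast hl2
    linarith
  have hk0 : (0 : ℝ) ≤ k := Nat.cast_nonneg _
  have hs : Real.sqrt (2 * l) ≤ 2 * r := by
    rw [Real.sqrt_le_left (by positivity)]
    nlinarith
  rw [div_le_iff₀ hc] at hm hr hq
  rw [e1]
  obtain ⟨a, ha⟩ : ∃ a : ℝ, a = (k : ℝ) := ⟨_, rfl⟩
  obtain ⟨b, hb⟩ : ∃ b : ℝ, b = (l : ℝ) := ⟨_, rfl⟩
  obtain ⟨d, hd⟩ : ∃ d : ℝ, d = (q : ℝ) := ⟨_, rfl⟩
  obtain ⟨u, hu⟩ : ∃ u : ℝ, u = (m : ℝ) := ⟨_, rfl⟩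
  obtain ⟨v, hv⟩ : ∃ v : ℝ, v = (r : ℝ) := ⟨_, rfl⟩
  rw [← ha, ← hb] at hq
  rw [← ha] at hm hr
  rw [← hv] at hr
  rw [← hd] at hq
  rw [← hu] at hm
  rw [← hu] at hm0
  rw [← hv] at hr0 hl' hs
  rw [← hb] at hl' hl0 hs
  rw [← hd] at hq0
  rw [← ha] at hk0
  unfold KK
  rw [← ha, ← hb, ← hv, ← hd, ← hu]
  have t1 : 3 * (a / v ^ 2 * (2 ^ m * Real.sqrt (2 * b))) ≤ 1 / 8 * c := by
    calc 3 * (a / v ^ 2 * (2 ^ m * Real.sqrt (2 * b)))
        ≤ 3 * (a / v ^ 2 * (2 ^ m * (2 * v))) := by gcongr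
      _ = 6 * a * 2 ^ m / v := by field_simp; ring
      _ ≤ 1 / 8 * c := by
          rw [div_le_iff₀ hr0]
          have : (0 : ℝ) < 2 ^ m := by positivity
          nlinarith
  have t2 : 3 * (a / v ^ 2 * (4 * b ^ 2 / d)) ≤ 1 / 8 * c := by
    calc 3 * (a / v ^ 2 * (4 * b ^ 2 / d))
        = 12 * a * b * b / (v ^ 2 * d) := by field_simp; ring
      _ ≤ 12 * a * b * (2 * v ^ 2) / (v ^ 2 * d) := by gcongr
      _ = 24 * a * b / d := by field_simp; ring
      _ ≤ 1 / 8 * c := by
          rw [div_le_iff₀ hq0]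
          nlinarith
  have t3 : 3 * (a / v ^ 2 * (2 * b / u)) ≤ 1 / 8 * c := by
    calc 3 * (a / v ^ 2 * (2 * b / u)) = 6 * a * b / (v ^ 2 * u) := by field_simp; ring
      _ ≤ 6 * a * (2 * v ^ 2) / (v ^ 2 * u) := by gcongr
      _ = 12 * a / u := by field_simp; ring
      _ ≤ 1 / 8 * c := by
          rw [div_le_iff₀ hm0]
          nlinarith
  calc 3 * (a / v ^ 2 * (2 ^ m * Real.sqrt (2 * b) + 4 * b ^ 2 / d + 2 * b / u))
      = 3 * (a / v ^ 2 * (2 ^ m * Real.sqrt (2 * b))) +
        3 * (a / v ^ 2 * (4 * b ^ 2 / d)) +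
        3 * (a / v ^ 2 * (2 * b / u)) := by ring
    _ ≤ 3 / 8 * c := by linarith

end

/-- For all `k` and `c > 0` there is a block size such that the number of relevant blocks of a
formula with at most `k` occurrences of each variable is at most `c n` with probability
exponentially close to one. -/
theorem line_bound (k : ℕ) {c : ℝ} (hc : 0 < c) :
    ∃ q : ℕ, 0 < q ∧ ∃ δ : ℝ, 0 < δ ∧ ∃ C : ℝ, 0 < C ∧ ∃ n0 : ℕ,
      ∀ (E : Type) [Fintype E], n0 ≤ Fintype.card E → ∀ L : Fm (E × Fin q), L.nsp = 0 →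
        (∀ v, L.oc v ≤ k) →
        ((univ.filter (fun w : Cf E q => c * Fintype.card E ≤ ((rel L w).card : ℝ))).card : ℝ) ≤
          Fintype.card (Cf E q) * (C * Real.exp (-δ * Fintype.card E)) := by
  obtain ⟨m, l, q, hm, hl, hq, hpar⟩ := exists_param k hc
  set D : ℝ := ((2 * l * (q * k) : ℕ) : ℝ) + 1 with hD
  have hD0 : 0 < D := by positivity
  have hl0 : (0 : ℝ) < ((2 * l : ℕ) : ℝ) := by
    have : 0 < 2 * l := by omega
    exact_mod_cast this
  have hq0 : (0 : ℝ) < q := by exact_mod_cast hq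
  have hKK : 0 ≤ KK m l q / q := by
    unfold KK
    positivity
  obtain ⟨n0, hn0⟩ := exists_nat_ge (8 * (3 * (KK m l q / q)) / c)
  refine ⟨q, hq, c / 2 / D / ((2 * l : ℕ) : ℝ), by positivity, D, hD0, n0, ?_⟩
  intro E _ hE L hL hk
  set n : ℝ := (Fintype.card E : ℝ) with hn
  have hnn : (n0 : ℝ) ≤ n := by rw [hn]; exact_mod_cast hE
  have hn0' : 0 ≤ n := by rw [hn]; exact Nat.cast_nonneg _
  have hl1 : (0 : ℝ) < (l : ℝ) - 1 := by
    have : (2 : ℝ) ≤ l := by exact_mod_cast hl
    linarith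
  have h := line_tail k m l hq hl hm L hL hk (c / 2 * n / D) (c * n) (by
    rw [← hn, ← hD]
    have e1 : D * (c / 2 * n / D) = c / 2 * n := by field_simp
    rw [e1]
    have e2 : 3 * ((k * n * q / (l - 1 : ℝ) + 1) * (KK m l q / q)) =
        3 * (k / (l - 1 : ℝ) * KK m l q) * n + 3 * (KK m l q / q) := by
      field_simp
    rw [e2]
    have e3 : 3 * (k / (l - 1 : ℝ) * KK m l q) * n ≤ 3 / 8 * c * n :=
      mul_le_mul_of_nonneg_right hpar hn0'
    have e4 : 3 * (KK m l q / q) ≤ 1 / 8 * c * n := by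
      rw [div_le_iff₀ hc] at hn0
      nlinarith
    nlinarith)
  refine h.trans (le_of_eq ?_)
  rw [← hD]
  congr 3
  ring

end Pool.Agent.T9h49.RK
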