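import Pool.Agent.T9h49.RK.Heavy

/-!
# Refutations contain a line with many relevant blocks
-/

set_option autoImplicit false

namespace Pool.Agent.T9h49.RK

open Finset Classical

section abs

variable {W E : Type} [Fintype W] [Fintype E]

/-- the constraints of the vertices in `A` imply `P` -/
def Imp (Cn : W → (E → Bool) → Prop) (A : Finset W) (P : (E → Bool) → Prop) : Prop :=
  ∀ y, (∀ v ∈ A, Cn v y) → P y

/-- the edges with exactly one end in `A` -/
noncomputable def bd (M : W → E → Prop) (A : Finset W) : Finset E :=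
  univ.filter (fun e => (A.filter (fun v => M v e)).card = 1)

theorem exists_min (Cn : W → (E → Bool) → Prop) (P : (E → Bool) → Prop) (A : Finset W)
    (h : Imp Cn A P) : ∃ A' ⊆ A, Imp Cn A' P ∧ ∀ v ∈ A', ¬ Imp Cn (A'.erase v) P := by
  induction A using Finset.strongInduction with
  | H A ih =>
    by_cases hm : ∀ v ∈ A, ¬ Imp Cn (A.erase v) P
    · exact ⟨A, Subset.rfl, h, hm⟩
    · push Not at hm
      obtain ⟨v, hv, hi⟩ := hm
      obtain ⟨A', h1, h2, h3⟩ := ih (A.erase v) (Finset.erase_ssubset hv) hi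
      exact ⟨A', h1.trans (Finset.erase_subset _ _), h2, h3⟩

theorem bd_relevant (M : W → E → Prop) (Cn : W → (E → Bool) → Prop)
    (hflip : ∀ v e y, Cn v (flip y e) ↔ (if M v e then ¬ Cn v y else Cn v y))
    (A : Finset W) (P : (E → Bool) → Prop) (h1 : Imp Cn A P)
    (h2 : ∀ v ∈ A, ¬ Imp Cn (A.erase v) P) (e : E) (he : e ∈ bd M A) :
    ∃ y, ¬ P y ∧ P (flip y e) := by
  simp only [bd, mem_filter, mem_univ, true_and] at he
  obtain ⟨v, hv⟩ := Finset.card_eq_one.mp he
  have hvA : v ∈ A ∧ M v e := by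
    have : v ∈ A.filter (fun v => M v e) := by rw [hv]; exact mem_singleton_self v
    simpa using this
  have hun : ∀ u ∈ A, u ≠ v → ¬ M u e := by
    intro u hu hne hM
    have : u ∈ A.filter (fun v => M v e) := by simp [hu, hM]
    rw [hv, mem_singleton] at this
    exact hne this
  have h3 := h2 v hvA.1
  unfold Imp at h3
  push Not at h3
  obtain ⟨y, hy, hP⟩ := h3
  refine ⟨y, hP, h1 _ fun u hu => ?_⟩
  rw [hflip]
  by_cases huv : u = v
  · subst huv
    rw [if_pos hvA.2]
    intro hc
    refine hP (h1 y fun u' hu' => ?_)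
    by_cases h : u' = u
    · rw [h]; exact hc
    · exact hy u' (mem_erase.mpr ⟨h, hu'⟩)
  · rw [if_neg (hun u hu huv)]
    exact hy u (mem_erase.mpr ⟨huv, hu⟩)

/-- sequences (in reversed order) in which each member follows from one constraint or from at most
`r` earlier members -/
inductive Chain (Cn : W → (E → Bool) → Prop) (r : ℕ) : List ((E → Bool) → Prop) → Prop
  | nil : Chain Cn r []
  | ax {l : List ((E → Bool) → Prop)} {P : (E → Bool) → Prop} (v : W) (h : Imp Cn {v} P) :
      Chain Cn r l → Chain Cn r (P :: l)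
  | inf {l : List ((E → Bool) → Prop)} {P : (E → Bool) → Prop} (S : List ((E → Bool) → Prop))
      (h1 : S.length ≤ r) (h2 : ∀ R ∈ S, R ∈ l) (h3 : ∀ y, (∀ R ∈ S, R y) → P y) :
      Chain Cn r l → Chain Cn r (P :: l)

theorem exists_medium (M : W → E → Prop) (Cn : W → (E → Bool) → Prop)
    (hflip : ∀ v e y, Cn v (flip y e) ↔ (if M v e then ¬ Cn v y else Cn v y))
    (hconn : ∀ A : Finset W, A.Nonempty → A ≠ univ → (bd M A).Nonempty)
    (r : ℕ) (hr : 1 ≤ r) (hN : 2 * r ≤ Fintype.card W) (l : List ((E → Bool) → Prop))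
    (hl : Chain Cn r l) (hfin : ∃ P ∈ l, ∀ y, ¬ P y) :
    ∃ P ∈ l, ∃ A : Finset W, Fintype.card W < 2 * r * A.card ∧ 2 * A.card ≤ Fintype.card W ∧
      ∀ e ∈ bd M A, ∃ y, ¬ P y ∧ P (flip y e) := by
  by_contra hcon
  push Not at hcon
  have hmed : ∀ P ∈ l, ∀ A : Finset W, Imp Cn A P → 2 * A.card ≤ Fintype.card W →
      ∃ A' ⊆ A, Imp Cn A' P ∧ (∀ v ∈ A', ¬ Imp Cn (A'.erase v) P) ∧
        2 * r * A'.card ≤ Fintype.card W := by
    intro P hP A hA hc
    obtain ⟨A', h1, h2, h3⟩ := exists_min Cn P A hA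
    refine ⟨A', h1, h2, h3, ?_⟩
    by_contra hlt
    push Not at hlt
    have hc' : 2 * A'.card ≤ Fintype.card W := by
      have := Finset.card_le_card h1
      omega
    obtain ⟨e, he, h4⟩ := hcon P hP A' hlt hc'
    obtain ⟨y, hy1, hy2⟩ := bd_relevant M Cn hflip A' P h2 h3 e he
    exact h4 y hy1 hy2
  have hall : ∀ l', Chain Cn r l' → (∀ P ∈ l', P ∈ l) → ∀ P ∈ l', ∃ A : Finset W,
      Imp Cn A P ∧ 2 * r * A.card ≤ Fintype.card W := by
    intro l' hl'
    induction hl' with
    | nil => intro _ P hP; simp at hP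
    | ax v h _ ih =>
      intro hsub P hP
      rcases List.mem_cons.mp hP with rfl | hP
      · exact ⟨{v}, h, by simpa using hN⟩
      · exact ih (fun P hP => hsub P (List.mem_cons_of_mem _ hP)) P hP
    | @inf l' P S h1 h2 h3 _ ih =>
      intro hsub R hR
      have ih' := ih (fun P hP => hsub P (List.mem_cons_of_mem _ hP))
      rcases List.mem_cons.mp hR with rfl | hR
      · have h4 : ∀ Q : (E → Bool) → Prop, ∃ A : Finset W, Q ∈ S → Imp Cn A Q ∧
            2 * r * A.card ≤ Fintype.card W := by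
          intro Q
          by_cases hQ : Q ∈ S
          · obtain ⟨A, hA⟩ := ih' Q (h2 Q hQ)
            exact ⟨A, fun _ => hA⟩
          · exact ⟨∅, fun h => absurd h hQ⟩
        choose A hA using h4
        have hU : Imp Cn (S.toFinset.biUnion A) R := by
          intro y hy
          refine h3 y fun Q hQ => (hA Q hQ).1 y fun v hv => ?_
          exact hy v (mem_biUnion.mpr ⟨Q, List.mem_toFinset.mpr hQ, hv⟩)
        have hUc : 2 * (S.toFinset.biUnion A).card ≤ Fintype.card W := by
          have h5 : 2 * r * (S.toFinset.biUnion A).card ≤ r * Fintype.card W := by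
            calc 2 * r * (S.toFinset.biUnion A).card ≤ 2 * r * ∑ Q ∈ S.toFinset, (A Q).card :=
                  Nat.mul_le_mul_left _ Finset.card_biUnion_le
              _ = ∑ Q ∈ S.toFinset, 2 * r * (A Q).card := by rw [Finset.mul_sum]
              _ ≤ ∑ Q ∈ S.toFinset, Fintype.card W := Finset.sum_le_sum fun Q hQ =>
                  (hA Q (List.mem_toFinset.mp hQ)).2
              _ = S.toFinset.card * Fintype.card W := by simp
              _ ≤ r * Fintype.card W :=
                  Nat.mul_le_mul_right _ ((List.toFinset_card_le S).trans h1)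
          have h6 : r * (2 * (S.toFinset.biUnion A).card) ≤ r * Fintype.card W := by
            calc r * (2 * (S.toFinset.biUnion A).card) = 2 * r * (S.toFinset.biUnion A).card := by
                  ring
              _ ≤ _ := h5
          exact Nat.le_of_mul_le_mul_left h6 (by omega)
        obtain ⟨A', _, h7, _, h8⟩ := hmed R (hsub R (by simp)) _ hU hUc
        exact ⟨A', h7, h8⟩
      · exact ih' R hR
  obtain ⟨P, hPl, hP⟩ := hfin
  obtain ⟨A, hA1, hA2⟩ := hall l hl (fun P hP => hP) P hPl
  have hA3 : 2 * A.card ≤ Fintype.card W := by nlinarith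
  obtain ⟨A', hA', h1, h2, h3⟩ := hmed P hPl A hA1 hA3
  have hne : A'.Nonempty := by
    rw [Finset.nonempty_iff_ne_empty]
    rintro rfl
    exact hP (fun _ => false) (h1 _ (by simp))
  have hnu : A' ≠ univ := by
    rintro rfl
    have h4 := Finset.card_le_card hA'
    rw [Finset.card_univ] at h4
    omega
  obtain ⟨e, he⟩ := hconn A' hne hnu
  obtain ⟨y, _, hy2⟩ := bd_relevant M Cn hflip A' P h1 h2 e he
  exact hP _ hy2

end abs

section tseitin

variable {W E : Type} {q : ℕ} [Fintype E]

/-- the parity of the variables of the blocks at `v` -/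
noncomputable def par (M : W → E → Prop) (v : W) (x : E × Fin q → Bool) : ZMod 2 :=
  ∑ p ∈ univ.filter (fun p : E × Fin q => M v p.1), (if x p then 1 else 0)

theorem asg_flip (w : Cf E q) (y : E → Bool) (e : E) :
    asg w (flip y e) = flip (asg w y) (e, w.1 e) := by
  funext p
  by_cases hp : p = (e, w.1 e)
  · subst hp
    rw [flip_self]
    simp [asg, flip_self]
  · rw [flip_ne _ hp]
    simp only [asg]
    by_cases h1 : w.1 p.1 = p.2
    · rw [if_pos h1, if_pos h1, flip_ne]
      intro h2
      exact hp (Prod.ext h2 (by rw [← h1, h2]))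
    · rw [if_neg h1, if_neg h1]

theorem par_flip (M : W → E → Prop) (v : W) (x : E × Fin q → Bool) (p : E × Fin q) :
    par M v (flip x p) = par M v x + (if M v p.1 then 1 else 0) := by
  unfold par
  have h1 : ∀ s ∈ univ.filter (fun p : E × Fin q => M v p.1),
      (if flip x p s then (1 : ZMod 2) else 0) = (if x s then 1 else 0) +
        (if s = p then 1 else 0) := by
    intro s _
    by_cases hs : s = p
    · subst hs
      rw [flip_self, if_pos rfl]
      cases x s <;> decide
    · rw [flip_ne _ hs, if_neg hs, add_zero]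
  rw [Finset.sum_congr rfl h1, Finset.sum_add_distrib, Finset.sum_ite_eq']
  simp

theorem zmod_two (a : ZMod 2) : a + 1 = 1 ↔ ¬ a = 1 := by
  revert a
  decide

theorem sat_flip (M : W → E → Prop) (w : Cf E q) (v : W) (e : E) (y : E → Bool) :
    par M v (asg w (flip y e)) = 1 ↔
      (if M v e then ¬ par M v (asg w y) = 1 else par M v (asg w y) = 1) := by
  rw [asg_flip, par_flip]
  by_cases h : M v e
  · simp only [h, if_true]
    exact zmod_two _
  · simp only [h, if_false, add_zero]

/-- sequences of formulas (in reversed order) each of which follows from the parity condition of a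
vertex or from at most `r` earlier ones -/
inductive SemDer (M : W → E → Prop) (r : ℕ) : List (Fm (E × Fin q)) → Prop
  | nil : SemDer M r []
  | ax {l : List (Fm (E × Fin q))} {L : Fm (E × Fin q)} (v : W)
      (h : ∀ x, par M v x = 1 → L.ev x = true) : SemDer M r l → SemDer M r (L :: l)
  | inf {l : List (Fm (E × Fin q))} {L : Fm (E × Fin q)} (S : List (Fm (E × Fin q)))
      (h1 : S.length ≤ r) (h2 : ∀ A ∈ S, A ∈ l)
      (h3 : ∀ x, (∀ A ∈ S, A.ev x = true) → L.ev x = true) :
      SemDer M r l → SemDer M r (L :: l)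

theorem SemDer.chain {M : W → E → Prop} {r : ℕ} (w : Cf E q) {Q : List (Fm (E × Fin q))}
    (h : SemDer M r Q) : Chain (fun v y => par M v (asg w y) = 1) r
      (Q.map (fun L => fun y => L.ev (asg w y) = true)) := by
  induction h with
  | nil => exact .nil
  | ax v h _ ih => exact .ax v (fun y hy => h _ (hy v (mem_singleton_self v))) ih
  | inf S h1 h2 h3 _ ih =>
    refine .inf (S.map (fun L => fun y => L.ev (asg w y) = true)) (by simpa using h1) ?_ ?_ ih
    · intro R hR
      obtain ⟨A, hA, rfl⟩ := List.mem_map.mp hR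
      exact List.mem_map_of_mem (h2 A hA)
    · intro y hy
      refine h3 _ fun A hA => ?_
      exact hy _ (List.mem_map_of_mem (f := fun (L : Fm (E × Fin q)) (y : E → Bool) =>
        L.ev (asg w y) = true) hA)

theorem rel_sub_blk (L : Fm (E × Fin q)) (w : Cf E q) : rel L w ⊆ blk L := by
  intro e he
  obtain ⟨y, hy⟩ := mem_rel.mp he
  by_contra hcon
  refine hy (Fm.ev_congr L fun p hp => ?_)
  simp only [asg]
  split
  · rw [flip_ne]
    rintro rfl
    exact hcon (mem_blk.mpr ⟨p.2, hp⟩)
  · rfl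

theorem exists_line [Fintype W] (M : W → E → Prop)
    (hconn : ∀ A : Finset W, A.Nonempty → A ≠ univ → (bd M A).Nonempty)
    (r : ℕ) (hr : 1 ≤ r) (hN : 2 * r ≤ Fintype.card W) (c : ℝ)
    (hexp : ∀ A : Finset W, Fintype.card W < 2 * r * A.card → 2 * A.card ≤ Fintype.card W →
      c * Fintype.card E ≤ (bd M A).card)
    (Q : List (Fm (E × Fin q))) (hQ : SemDer M r Q) (hfin : ∃ L ∈ Q, ∀ x, L.ev x = false)
    (w : Cf E q) :
    ∃ L ∈ Q, c * Fintype.card E ≤ ((rel L w).card : ℝ) := by
  obtain ⟨L0, hL0, hfalse⟩ := hfin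
  obtain ⟨P, hP, A, h1, h2, h3⟩ := exists_medium M (fun v y => par M v (asg w y) = 1)
    (fun v e y => sat_flip M w v e y) hconn r hr hN _ (hQ.chain w)
    ⟨_, List.mem_map_of_mem hL0, fun y => by simp [hfalse]⟩
  obtain ⟨L, hL, rfl⟩ := List.mem_map.mp hP
  refine ⟨L, hL, (hexp A h1 h2).trans ?_⟩
  rw [Nat.cast_le]
  refine Finset.card_le_card fun e he => ?_
  obtain ⟨y, hy1, hy2⟩ := h3 e he
  exact mem_rel.mpr ⟨y, fun h => hy1 (h.trans hy2)⟩

end tseitin

/-- **Lower bound for the number of lines.** -/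
theorem many_lines (k : ℕ) {c : ℝ} (hc : 0 < c) :
    ∃ q : ℕ, 0 < q ∧ ∃ δ : ℝ, 0 < δ ∧ ∃ n0 : ℕ,
      ∀ (W E : Type) [Fintype W] [Fintype E] (M : W → E → Prop), n0 ≤ Fintype.card E →
      (∀ A : Finset W, A.Nonempty → A ≠ univ → (bd M A).Nonempty) →
      ∀ r : ℕ, 1 ≤ r → 2 * r ≤ Fintype.card W →
      (∀ A : Finset W, Fintype.card W < 2 * r * A.card → 2 * A.card ≤ Fintype.card W →
        c * Fintype.card E ≤ (bd M A).card) →
      ∀ Q : List (Fm (E × Fin q)), SemDer M r Q → (∃ L ∈ Q, ∀ x, L.ev x = false) →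
        (∀ L ∈ Q, L.nsp = 0) → (∀ L ∈ Q, (univ.filter (fun v => k < L.oc v)).card ≤ k ∨
          ((blk L).card : ℝ) < c * Fintype.card E) →
        Real.exp (δ * Fintype.card E) ≤ Q.length := by
  obtain ⟨q, hq, δ, hδ, C, hC, n0, hmain⟩ := line_bound_heavy k k hc
  obtain ⟨n1, hn1⟩ := exists_nat_ge (2 * Real.log (C + 1) / δ)
  refine ⟨q, hq, δ / 2, by positivity, max n0 n1, ?_⟩
  intro W E _ _ M hE hconn r hr hN hexp Q hQ hfin hsp hk
  set n : ℝ := (Fintype.card E : ℝ) with hn
  have hcf : 0 < Fintype.card (Cf E q) := by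
    have : Nonempty (Fin q) := ⟨⟨0, hq⟩⟩
    exact Fintype.card_pos
  have hcf0 : (0 : ℝ) < Fintype.card (Cf E q) := by exact_mod_cast hcf
  have h1 : (univ : Finset (Cf E q)) ⊆ Q.toFinset.biUnion
      (fun L => univ.filter (fun w : Cf E q => c * Fintype.card E ≤ ((rel L w).card : ℝ))) := by
    intro w _
    obtain ⟨L, hL, h⟩ := exists_line M hconn r hr hN c hexp Q hQ hfin w
    simp only [mem_biUnion, List.mem_toFinset, mem_filter, mem_univ, true_and]
    exact ⟨L, hL, h⟩
  have h2 : (Fintype.card (Cf E q) : ℝ) ≤ Q.length *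
      (Fintype.card (Cf E q) * (C * Real.exp (-δ * n))) := by
    calc (Fintype.card (Cf E q) : ℝ) = ((univ : Finset (Cf E q)).card : ℝ) := by
          rw [Finset.card_univ]
      _ ≤ ((Q.toFinset.biUnion (fun L => univ.filter
          (fun w : Cf E q => c * Fintype.card E ≤ ((rel L w).card : ℝ)))).card : ℝ) := by
          exact_mod_cast Finset.card_le_card h1
      _ ≤ ∑ L ∈ Q.toFinset, ((univ.filter
          (fun w : Cf E q => c * Fintype.card E ≤ ((rel L w).card : ℝ))).card : ℝ) := by
          exact_mod_cast Finset.card_biUnion_le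
      _ ≤ ∑ L ∈ Q.toFinset, (Fintype.card (Cf E q) * (C * Real.exp (-δ * n))) := by
          refine Finset.sum_le_sum fun L hL => ?_
          rw [List.mem_toFinset] at hL
          rcases hk L hL with h | h
          · exact hmain E (le_trans (le_max_left _ _) hE) L (hsp L hL) h
          · rw [Finset.filter_false_of_mem]
            · rw [Finset.card_empty, Nat.cast_zero]
              positivity
            · intro w _ hw
              have h3 : ((rel L w).card : ℝ) ≤ (blk L).card := by
                exact_mod_cast Finset.card_le_card (rel_sub_blk L w)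
              linarith
      _ = Q.toFinset.card * (Fintype.card (Cf E q) * (C * Real.exp (-δ * n))) := by
          rw [Finset.sum_const, nsmul_eq_mul]
      _ ≤ _ := by
          refine mul_le_mul_of_nonneg_right ?_ (by positivity)
          exact_mod_cast List.toFinset_card_le Q
  have h3 : 1 ≤ (Q.length : ℝ) * (C * Real.exp (-δ * n)) := by
    have h4 : (Fintype.card (Cf E q) : ℝ) * 1 ≤ Fintype.card (Cf E q) *
        ((Q.length : ℝ) * (C * Real.exp (-δ * n))) := by
      rw [mul_one]
      refine h2.trans (le_of_eq (by ring))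
    exact le_of_mul_le_mul_left h4 hcf0
  have h4 : Real.exp (δ * n) ≤ Q.length * C := by
    have h5 : Real.exp (-δ * n) = (Real.exp (δ * n))⁻¹ := by
      rw [← Real.exp_neg]; ring_nf
    rw [h5] at h3
    have h6 := Real.exp_pos (δ * n)
    have h7 : (1 : ℝ) * Real.exp (δ * n) ≤ (Q.length : ℝ) * (C * (Real.exp (δ * n))⁻¹) *
        Real.exp (δ * n) := mul_le_mul_of_nonneg_right h3 h6.le
    rw [one_mul] at h7
    refine h7.trans (le_of_eq ?_)
    field_simp
  have hn1' : Real.log (C + 1) ≤ δ / 2 * n := by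
    rw [div_le_iff₀ hδ] at hn1
    have h5 : (n1 : ℝ) ≤ n := by
      rw [hn]
      exact_mod_cast le_trans (le_max_right _ _) hE
    nlinarith
  have h5 : C ≤ Real.exp (δ / 2 * n) := by
    have h6 : Real.exp (Real.log (C + 1)) ≤ Real.exp (δ / 2 * n) := Real.exp_le_exp.mpr hn1'
    rw [Real.exp_log (by linarith)] at h6
    linarith
  have h6 : Real.exp (δ * n) = Real.exp (δ / 2 * n) * Real.exp (δ / 2 * n) := by
    rw [← Real.exp_add]; ring_nf
  rw [h6] at h4
  have h7 := Real.exp_pos (δ / 2 * n)
  have h8 : Real.exp (δ / 2 * n) * Real.exp (δ / 2 * n) ≤ Q.length * Real.exp (δ / 2 * n) :=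
    h4.trans (mul_le_mul_of_nonneg_left h5 (Nat.cast_nonneg _))
  exact le_of_mul_le_mul_right h8 h7

end Pool.Agent.T9h49.RK
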