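import Mathlib

/-!
# A tail bound for sums of functions of few blocks
-/

set_option autoImplicit false

namespace Pool.Agent.T9h49.RK

open Finset

section

variable (E : Type) (q : ℕ)

/-- choices of a free variable in each block and of a value for each variable -/
abbrev Cf : Type := (E → Fin q) × (E × Fin q → Bool)

variable {E} {q} [DecidableEq E]

def mix (B : Finset E) (x y : Cf E q) : Cf E q :=
  (fun e => if e ∈ B then x.1 e else y.1 e, fun p => if p.1 ∈ B then x.2 p else y.2 p)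

/-- `f` depends only on the blocks in `B` -/
def Dep {R : Type} (f : Cf E q → R) (B : Finset E) : Prop :=
  ∀ x y : Cf E q, (∀ e ∈ B, x.1 e = y.1 e) → (∀ p : E × Fin q, p.1 ∈ B → x.2 p = y.2 p) →
    f x = f y

theorem Dep.mono {R : Type} {f : Cf E q → R} {B C : Finset E} (h : Dep f B) (hBC : B ⊆ C) :
    Dep f C := fun x y h1 h2 => h x y (fun e he => h1 e (hBC he)) (fun p hp => h2 p (hBC hp))

theorem mix_mix (B : Finset E) (x y : Cf E q) : mix B (mix B x y) (mix B y x) = x := by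
  unfold mix
  refine Prod.ext (funext fun e => ?_) (funext fun p => ?_)
  · by_cases h : e ∈ B <;> simp [h]
  · by_cases h : p.1 ∈ B <;> simp [h]

def mixEquiv (B : Finset E) : Cf E q × Cf E q ≃ Cf E q × Cf E q where
  toFun p := (mix B p.1 p.2, mix B p.2 p.1)
  invFun p := (mix B p.1 p.2, mix B p.2 p.1)
  left_inv p := by simp only [mix_mix]
  right_inv p := by simp only [mix_mix]

variable [Fintype E]

theorem indep {f g : Cf E q → ℝ} {B C : Finset E} (hf : Dep f B) (hg : Dep g C)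
    (hBC : Disjoint B C) :
    (∑ x, f x * g x) * (Fintype.card (Cf E q) : ℝ) = (∑ x, f x) * ∑ x, g x := by
  have h1 : (∑ x, f x) * ∑ y, g y = ∑ p : Cf E q × Cf E q, f p.1 * g p.2 := by
    rw [Finset.sum_mul_sum]
    exact (Fintype.sum_prod_type (fun p : Cf E q × Cf E q => f p.1 * g p.2)).symm
  have h2 : ∀ p : Cf E q × Cf E q, f p.1 * g p.2 =
      f (mixEquiv B p).1 * g (mixEquiv B p).1 := by
    intro p
    have e1 : f p.1 = f (mixEquiv B p).1 := by
      refine hf _ _ (fun e he => ?_) (fun v hv => ?_)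
      · simp [mixEquiv, mix, he]
      · simp [mixEquiv, mix, hv]
    have e2 : g p.2 = g (mixEquiv B p).1 := by
      refine hg _ _ (fun e he => ?_) (fun v hv => ?_)
      · have : e ∉ B := fun h => (Finset.disjoint_left.mp hBC h) he
        simp [mixEquiv, mix, this]
      · have : v.1 ∉ B := fun h => (Finset.disjoint_left.mp hBC h) hv
        simp [mixEquiv, mix, this]
    rw [e1, e2]
  rw [h1, Finset.sum_congr rfl (fun p _ => h2 p),
    Equiv.sum_comp (mixEquiv B) (fun p => f p.1 * g p.1)]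
  have h3 := Fintype.sum_prod_type (fun p : Cf E q × Cf E q => f p.1 * g p.1)
  rw [h3]
  simp only [Finset.sum_const, nsmul_eq_mul]
  rw [← Finset.mul_sum, mul_comm, Finset.card_univ]

theorem indep_prod {ι : Type} [DecidableEq ι] (f : ι → Cf E q → ℝ) (B : ι → Finset E)
    (hdep : ∀ i, Dep (f i) (B i)) (J : Finset ι)
    (hJ : ∀ i ∈ J, ∀ j ∈ J, i ≠ j → Disjoint (B i) (B j)) :
    (∑ x, ∏ i ∈ J, f i x) * (Fintype.card (Cf E q) : ℝ) ^ J.card =
      (Fintype.card (Cf E q) : ℝ) * ∏ i ∈ J, ∑ x, f i x := by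
  induction J using Finset.induction_on with
  | empty => simp
  | insert i J hi ih =>
    have h1 : Dep (fun x => ∏ i ∈ J, f i x) (J.biUnion B) := by
      intro x y h1 h2
      refine Finset.prod_congr rfl fun j hj => ?_
      exact hdep j x y (fun e he => h1 e (mem_biUnion.mpr ⟨j, hj, he⟩))
        (fun p hp => h2 p (mem_biUnion.mpr ⟨j, hj, hp⟩))
    have h2 : Disjoint (B i) (J.biUnion B) := by
      rw [Finset.disjoint_biUnion_right]
      intro j hj
      exact hJ i (mem_insert_self i J) j (mem_insert_of_mem hj) (fun h => hi (h ▸ hj))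
    have h3 := indep (hdep i) h1 h2
    have h4 := ih (fun a ha b hb => hJ a (mem_insert_of_mem ha) b (mem_insert_of_mem hb))
    rw [Finset.prod_insert hi, Finset.card_insert_of_notMem hi]
    simp only [Finset.prod_insert hi]
    calc (∑ x, f i x * ∏ j ∈ J, f j x) * (Fintype.card (Cf E q) : ℝ) ^ (J.card + 1)
        = ((∑ x, f i x * ∏ j ∈ J, f j x) * (Fintype.card (Cf E q) : ℝ)) *
          (Fintype.card (Cf E q) : ℝ) ^ J.card := by ring
      _ = (∑ x, f i x) * ((∑ x, ∏ j ∈ J, f j x) * (Fintype.card (Cf E q) : ℝ) ^ J.card) := by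
          rw [h3]; ring
      _ = _ := by rw [h4]; ring

theorem exp_le_lin {u : ℝ} (h0 : 0 ≤ u) (h1 : u ≤ 1) : Real.exp u ≤ 1 + 2 * u := by
  have h := convexOn_exp.2 (Set.mem_univ (0 : ℝ)) (Set.mem_univ (1 : ℝ))
    (sub_nonneg.mpr h1) h0 (by ring)
  simp only [smul_eq_mul, mul_zero, mul_one, zero_add, Real.exp_zero] at h
  have h2 : Real.exp 1 < 3 := by
    have := Real.exp_one_lt_d9
    linarith
  nlinarith

/-- exponential moments -/
theorem mgf {ι : Type} [DecidableEq ι] (X : ι → Cf E q → ℕ) (B : ι → Finset E)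
    (hdep : ∀ i, Dep (X i) (B i)) (a : ι → ℝ) {M : ℕ} (hM : 0 < M) (hX : ∀ i x, X i x ≤ M)
    (hq : 0 < Fintype.card (Cf E q))
    (ha : ∀ i, ∑ x, (X i x : ℝ) ≤ a i * Fintype.card (Cf E q)) (J : Finset ι)
    (hJ : ∀ i ∈ J, ∀ j ∈ J, i ≠ j → Disjoint (B i) (B j)) :
    ∑ x, Real.exp ((∑ i ∈ J, (X i x : ℝ)) / M) ≤
      Fintype.card (Cf E q) * Real.exp (2 * (∑ i ∈ J, a i) / M) := by
  set N : ℝ := (Fintype.card (Cf E q) : ℝ) with hN
  have hN0 : 0 < N := by rw [hN]; exact_mod_cast hq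
  have hM0 : (0 : ℝ) < M := by exact_mod_cast hM
  have h1 := indep_prod (fun i x => Real.exp ((X i x : ℝ) / M)) B
    (fun i x y h1 h2 => by simp only [hdep i x y h1 h2]) J hJ
  have h2 : ∀ i, ∑ x, Real.exp ((X i x : ℝ) / M) ≤ N * Real.exp (2 * a i / M) := by
    intro i
    calc ∑ x, Real.exp ((X i x : ℝ) / M) ≤ ∑ x, (1 + 2 * ((X i x : ℝ) / M)) := by
          refine Finset.sum_le_sum fun x _ => exp_le_lin (by positivity) ?_
          rw [div_le_one hM0]
          exact_mod_cast hX i x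
      _ = N + 2 / M * ∑ x, (X i x : ℝ) := by
          rw [Finset.sum_add_distrib, Finset.sum_const, Finset.card_univ, nsmul_eq_mul, mul_one,
            Finset.mul_sum]
          congr 1
          refine Finset.sum_congr rfl fun x _ => ?_
          ring
      _ ≤ N + 2 / M * (a i * N) := by
          have := ha i
          have h3 : (0 : ℝ) ≤ 2 / M := by positivity
          nlinarith [mul_le_mul_of_nonneg_left this h3]
      _ = N * (2 * a i / M + 1) := by ring
      _ ≤ N * Real.exp (2 * a i / M) :=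
          mul_le_mul_of_nonneg_left (Real.add_one_le_exp _) hN0.le
  have h3 : ∏ i ∈ J, ∑ x, Real.exp ((X i x : ℝ) / M) ≤
      N ^ J.card * Real.exp (2 * (∑ i ∈ J, a i) / M) := by
    calc ∏ i ∈ J, ∑ x, Real.exp ((X i x : ℝ) / M) ≤ ∏ i ∈ J, (N * Real.exp (2 * a i / M)) :=
          Finset.prod_le_prod (fun i _ => Finset.sum_nonneg fun x _ => (Real.exp_pos _).le)
            (fun i _ => h2 i)
      _ = N ^ J.card * Real.exp (2 * (∑ i ∈ J, a i) / M) := by
          rw [Finset.prod_mul_distrib, Finset.prod_const, ← Real.exp_sum]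
          congr 2
          rw [Finset.mul_sum, Finset.sum_div]
  have h4 : (∑ x, ∏ i ∈ J, Real.exp ((X i x : ℝ) / M)) =
      ∑ x, Real.exp ((∑ i ∈ J, (X i x : ℝ)) / M) := by
    refine Finset.sum_congr rfl fun x _ => ?_
    rw [← Real.exp_sum, Finset.sum_div]
  rw [h4] at h1
  have h5 : (∑ x, Real.exp ((∑ i ∈ J, (X i x : ℝ)) / M)) * N ^ J.card ≤
      (N * Real.exp (2 * (∑ i ∈ J, a i) / M)) * N ^ J.card := by
    rw [h1]
    calc N * ∏ i ∈ J, ∑ x, Real.exp ((X i x : ℝ) / M) ≤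
        N * (N ^ J.card * Real.exp (2 * (∑ i ∈ J, a i) / M)) :=
          mul_le_mul_of_nonneg_left h3 hN0.le
      _ = _ := by ring
  exact le_of_mul_le_mul_right h5 (by positivity)

theorem markov {ι : Type} [DecidableEq ι] (X : ι → Cf E q → ℕ) (B : ι → Finset E)
    (hdep : ∀ i, Dep (X i) (B i)) (a : ι → ℝ) (ha0 : ∀ i, 0 ≤ a i) {M : ℕ} (hM : 0 < M)
    (hX : ∀ i x, X i x ≤ M) (hq : 0 < Fintype.card (Cf E q))
    (ha : ∀ i, ∑ x, (X i x : ℝ) ≤ a i * Fintype.card (Cf E q)) (J : Finset ι)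
    (hJ : ∀ i ∈ J, ∀ j ∈ J, i ≠ j → Disjoint (B i) (B j)) (τ : ℝ) :
    ((univ.filter (fun x => 3 * (∑ i ∈ J, a i) + τ ≤ ∑ i ∈ J, (X i x : ℝ))).card : ℝ) ≤
      Fintype.card (Cf E q) * Real.exp (-τ / M) := by
  have h := mgf X B hdep a hM hX hq ha J hJ
  set A := ∑ i ∈ J, a i with hA
  have hA0 : 0 ≤ A := Finset.sum_nonneg fun i _ => ha0 i
  have hM0 : (0 : ℝ) < M := by exact_mod_cast hM
  set U := univ.filter (fun x : Cf E q => 3 * A + τ ≤ ∑ i ∈ J, (X i x : ℝ)) with hU
  have h1 : (U.card : ℝ) * Real.exp ((3 * A + τ) / M) ≤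
      Fintype.card (Cf E q) * Real.exp (2 * A / M) := by
    refine le_trans ?_ h
    calc (U.card : ℝ) * Real.exp ((3 * A + τ) / M) =
          ∑ x ∈ U, Real.exp ((3 * A + τ) / M) := by
          rw [Finset.sum_const, nsmul_eq_mul]
      _ ≤ ∑ x ∈ U, Real.exp ((∑ i ∈ J, (X i x : ℝ)) / M) := by
          refine Finset.sum_le_sum fun x hx => Real.exp_le_exp.mpr ?_
          rw [hU, mem_filter] at hx
          exact div_le_div_of_nonneg_right hx.2 hM0.le
      _ ≤ ∑ x, Real.exp ((∑ i ∈ J, (X i x : ℝ)) / M) :=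
          Finset.sum_le_sum_of_subset_of_nonneg (Finset.subset_univ _)
            (fun x _ _ => (Real.exp_pos _).le)
  have h2 : (U.card : ℝ) ≤ Fintype.card (Cf E q) * Real.exp (2 * A / M) *
      Real.exp (-((3 * A + τ) / M)) := by
    rw [Real.exp_neg, ← div_eq_mul_inv, le_div_iff₀ (Real.exp_pos _)]
    exact h1
  refine h2.trans ?_
  rw [mul_assoc, ← Real.exp_add]
  refine mul_le_mul_of_nonneg_left (Real.exp_le_exp.mpr ?_) (Nat.cast_nonneg _)
  rw [← sub_nonneg]
  have : -τ / M - (2 * A / M + -((3 * A + τ) / M)) = A / M := by ring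
  rw [this]
  positivity

/-- greedy colourings -/
theorem exists_color {ι : Type} [Fintype ι] [DecidableEq ι] (R : ι → ι → Prop) [DecidableRel R]
    (hsym : ∀ i j, R i j → R j i) (D : ℕ) (hD : ∀ i, (univ.filter (fun j => R i j)).card ≤ D) :
    ∃ f : ι → Fin (D + 1), ∀ i j, i ≠ j → R i j → f i ≠ f j := by
  suffices h : ∀ s : Finset ι, ∃ f : ι → Fin (D + 1), ∀ i ∈ s, ∀ j ∈ s, i ≠ j → R i j →
      f i ≠ f j by
    obtain ⟨f, hf⟩ := h univ
    exact ⟨f, fun i j => hf i (mem_univ i) j (mem_univ j)⟩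
  intro s
  induction s using Finset.induction_on with
  | empty => exact ⟨fun _ => 0, by simp⟩
  | insert x s hx ih =>
    obtain ⟨f, hf⟩ := ih
    have hc : ((univ.filter (fun j => R x j)).image f).card < (univ : Finset (Fin (D + 1))).card := by
      rw [Finset.card_univ, Fintype.card_fin]
      exact Nat.lt_succ_of_le (Finset.card_image_le.trans (hD x))
    obtain ⟨c, _, hc⟩ := Finset.exists_mem_notMem_of_card_lt_card hc
    refine ⟨Function.update f x c, ?_⟩
    have hne : ∀ j ∈ s, j ≠ x := fun j hj h => hx (h ▸ hj)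
    intro i hi j hj hij hR
    rw [mem_insert] at hi hj
    rcases hi with rfl | hi
    · rcases hj with rfl | hj
      · exact absurd rfl hij
      · rw [Function.update_self, Function.update_of_ne (hne j hj)]
        intro h
        exact hc (mem_image.mpr ⟨j, by simpa using hR, h.symm⟩)
    · rcases hj with rfl | hj
      · rw [Function.update_self, Function.update_of_ne (hne i hi)]
        intro h
        exact hc (mem_image.mpr ⟨i, by simpa using hsym _ _ hR, h⟩)
      · rw [Function.update_of_ne (hne i hi), Function.update_of_ne (hne j hj)]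
        exact hf i hi j hj hij hR

/-- the tail bound -/
theorem tail {ι : Type} [Fintype ι] [DecidableEq ι] (X : ι → Cf E q → ℕ) (B : ι → Finset E)
    (hdep : ∀ i, Dep (X i) (B i)) (a : ι → ℝ) (ha0 : ∀ i, 0 ≤ a i) {M : ℕ} (hM : 0 < M)
    (hX : ∀ i x, X i x ≤ M) (hq : 0 < Fintype.card (Cf E q))
    (ha : ∀ i, ∑ x, (X i x : ℝ) ≤ a i * Fintype.card (Cf E q)) (D : ℕ)
    (hD : ∀ i, (univ.filter (fun j => ¬ Disjoint (B i) (B j))).card ≤ D) (τ : ℝ) :
    ((univ.filter (fun x => 3 * (∑ i, a i) + (D + 1) * τ ≤ ∑ i, (X i x : ℝ))).card : ℝ) ≤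
      Fintype.card (Cf E q) * ((D + 1) * Real.exp (-τ / M)) := by
  obtain ⟨f, hf⟩ := exists_color (fun i j => ¬ Disjoint (B i) (B j))
    (fun i j h h' => h h'.symm) D hD
  set J : Fin (D + 1) → Finset ι := fun c => univ.filter (fun i => f i = c) with hJdef
  have hJ : ∀ c, ∀ i ∈ J c, ∀ j ∈ J c, i ≠ j → Disjoint (B i) (B j) := by
    intro c i hi j hj hij
    by_contra hcon
    refine hf i j hij hcon ?_
    rw [hJdef] at hi hj
    simp only [mem_filter, mem_univ, true_and] at hi hj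
    rw [hi, hj]
  have hsum : ∀ g : ι → ℝ, ∑ i, g i = ∑ c, ∑ i ∈ J c, g i := by
    intro g
    rw [hJdef]
    exact (Finset.sum_fiberwise univ f g).symm
  have h1 : ∀ x : Cf E q, 3 * (∑ i, a i) + (D + 1) * τ ≤ ∑ i, (X i x : ℝ) →
      ∃ c, 3 * (∑ i ∈ J c, a i) + τ ≤ ∑ i ∈ J c, (X i x : ℝ) := by
    intro x hx
    by_contra hcon
    push Not at hcon
    have h2 : ∑ c, ∑ i ∈ J c, (X i x : ℝ) < ∑ c, (3 * (∑ i ∈ J c, a i) + τ) :=
      Finset.sum_lt_sum_of_nonempty ⟨0, mem_univ _⟩ (fun c _ => hcon c)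
    rw [← hsum (fun i => (X i x : ℝ)), Finset.sum_add_distrib, ← Finset.mul_sum, ← hsum,
      Finset.sum_const, Finset.card_univ, Fintype.card_fin, nsmul_eq_mul] at h2
    push_cast at h2
    linarith
  have h3 : (univ.filter (fun x : Cf E q => 3 * (∑ i, a i) + (D + 1) * τ ≤
      ∑ i, (X i x : ℝ))) ⊆ univ.biUnion (fun c : Fin (D + 1) => univ.filter
        (fun x : Cf E q => 3 * (∑ i ∈ J c, a i) + τ ≤ ∑ i ∈ J c, (X i x : ℝ))) := by
    intro x hx
    rw [mem_filter] at hx
    obtain ⟨c, hc⟩ := h1 x hx.2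
    simp only [mem_biUnion, mem_univ, true_and, mem_filter]
    exact ⟨c, hc⟩
  have h4 := (Finset.card_le_card h3).trans Finset.card_biUnion_le
  have h5 : ((univ.filter (fun x : Cf E q => 3 * (∑ i, a i) + (D + 1) * τ ≤
      ∑ i, (X i x : ℝ))).card : ℝ) ≤ ∑ c : Fin (D + 1), ((univ.filter
        (fun x : Cf E q => 3 * (∑ i ∈ J c, a i) + τ ≤ ∑ i ∈ J c, (X i x : ℝ))).card : ℝ) := by
    exact_mod_cast h4
  refine h5.trans ?_
  calc ∑ c : Fin (D + 1), ((univ.filter
        (fun x : Cf E q => 3 * (∑ i ∈ J c, a i) + τ ≤ ∑ i ∈ J c, (X i x : ℝ))).card : ℝ) ≤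
      ∑ c : Fin (D + 1), Fintype.card (Cf E q) * Real.exp (-τ / M) :=
        Finset.sum_le_sum fun c _ => markov X B hdep a ha0 hM hX hq ha (J c) (hJ c) τ
    _ = _ := by
        rw [Finset.sum_const, Finset.card_univ, Fintype.card_fin, nsmul_eq_mul]
        push_cast
        ring

end

end Pool.Agent.T9h49.RK
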