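import Pool.Agent.T9h49.RK.Dec
import Pool.Agent.T9h49.RK.Prob

/-!
# The expected number of relevant blocks of a piece
-/

set_option autoImplicit false

namespace Pool.Agent.T9h49.RK

open Finset Classical

section

variable {E : Type} {q : ℕ}

/-- the assignment given by a configuration and values of the blocks -/
def asg (w : Cf E q) (y : E → Bool) : E × Fin q → Bool :=
  fun p => if w.1 p.1 = p.2 then y p.1 else w.2 p

variable [Fintype E]

/-- relevant blocks -/
noncomputable def rel (L : Fm (E × Fin q)) (w : Cf E q) : Finset E :=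
  univ.filter (fun e => ∃ y, L.ev (asg w y) ≠ L.ev (asg w (flip y e)))

/-- blocks relevant for an instance of the piece -/
noncomputable def relP (c : Fm (E × Fin q)) (w : Cf E q) : Finset E :=
  univ.filter (fun e => ∃ y, ∃ x ∈ c.inst, x.ev (asg w y) ≠ x.ev (asg w (flip y e)))

/-- blocks of a piece -/
noncomputable def blk (c : Fm (E × Fin q)) : Finset E :=
  univ.filter (fun e => ∃ i, 0 < c.oc (e, i))

/-- blocks whose free variable occurs -/
noncomputable def fre (c : Fm (E × Fin q)) (w : Cf E q) : Finset E :=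
  univ.filter (fun e => 0 < c.oc (e, w.1 e))

theorem mem_rel {L : Fm (E × Fin q)} {w : Cf E q} {e : E} :
    e ∈ rel L w ↔ ∃ y, L.ev (asg w y) ≠ L.ev (asg w (flip y e)) := by simp [rel]

theorem mem_relP {L : Fm (E × Fin q)} {w : Cf E q} {e : E} :
    e ∈ relP L w ↔ ∃ y, ∃ x ∈ L.inst, x.ev (asg w y) ≠ x.ev (asg w (flip y e)) := by
  simp [relP]

theorem mem_blk {L : Fm (E × Fin q)} {e : E} : e ∈ blk L ↔ ∃ i, 0 < L.oc (e, i) := by simp [blk]

theorem mem_fre {L : Fm (E × Fin q)} {w : Cf E q} {e : E} :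
    e ∈ fre L w ↔ 0 < L.oc (e, w.1 e) := by simp [fre]

theorem rel_card_le (l : ℕ) (L : Fm (E × Fin q)) (w : Cf E q) :
    (rel L w).card ≤ ∑ i : Fin (Fm.pieces l L).length, (relP (Fm.pieces l L)[i.1] w).card := by
  have h1 : rel L w ⊆ univ.biUnion
      (fun i : Fin (Fm.pieces l L).length => relP (Fm.pieces l L)[i.1] w) := by
    intro e he
    obtain ⟨y, hy⟩ := mem_rel.mp he
    obtain ⟨c, hc, x, hx, h⟩ := Fm.pieces_sem l L hy
    obtain ⟨i, hi, rfl⟩ := List.mem_iff_getElem.mp hc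
    simp only [mem_biUnion, mem_univ, true_and]
    exact ⟨⟨i, hi⟩, mem_relP.mpr ⟨y, x, hx, h⟩⟩
  exact (Finset.card_le_card h1).trans Finset.card_biUnion_le

theorem relP_dep (c : Fm (E × Fin q)) : Dep (fun w => (relP c w).card) (blk c) := by
  intro w w' h1 h2
  have h3 : ∀ x ∈ c.inst, ∀ y, x.ev (asg w y) = x.ev (asg w' y) := by
    intro x hx y
    refine Fm.ev_congr x fun p hp => ?_
    rw [Fm.oc_inst p c x hx] at hp
    have h4 : p.1 ∈ blk c := mem_blk.mpr ⟨p.2, hp⟩
    simp only [asg, h1 p.1 h4, h2 p h4]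
  have h4 : relP c w = relP c w' := by
    ext e
    rw [mem_relP, mem_relP]
    constructor
    · rintro ⟨y, x, hx, h⟩
      exact ⟨y, x, hx, by rwa [← h3 x hx, ← h3 x hx]⟩
    · rintro ⟨y, x, hx, h⟩
      exact ⟨y, x, hx, by rwa [h3 x hx, h3 x hx]⟩
  simp only [h4]

theorem relP_sub_fre (c : Fm (E × Fin q)) (w : Cf E q) : relP c w ⊆ fre c w := by
  intro e he
  obtain ⟨y, x, hx, h⟩ := mem_relP.mp he
  rw [mem_fre]
  by_contra hcon
  refine h (Fm.ev_congr x fun p hp => ?_)
  rw [Fm.oc_inst p c x hx] at hp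
  simp only [asg]
  split
  · rename_i h1
    by_cases h2 : p.1 = e
    · exfalso
      apply hcon
      rw [← h2, h1]
      exact hp
    · rw [flip_ne _ h2]
  · rfl

theorem card_blk_le (c : Fm (E × Fin q)) : (blk c).card ≤ c.lv := by
  rw [← Fm.sum_oc c, Fintype.sum_prod_type]
  calc (blk c).card = ∑ e ∈ blk c, 1 := by simp
    _ ≤ ∑ e ∈ blk c, ∑ i, c.oc (e, i) := by
        refine Finset.sum_le_sum fun e he => ?_
        obtain ⟨i, hi⟩ := mem_blk.mp he
        exact le_trans hi (Finset.single_le_sum (f := fun i => c.oc (e, i))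
          (fun _ _ => Nat.zero_le _) (mem_univ i))
    _ ≤ ∑ e, ∑ i, c.oc (e, i) :=
        Finset.sum_le_sum_of_subset_of_nonneg (Finset.subset_univ _) (fun _ _ _ => Nat.zero_le _)

theorem fre_sub_blk (c : Fm (E × Fin q)) (w : Cf E q) : fre c w ⊆ blk c := by
  intro e he
  exact mem_blk.mpr ⟨_, mem_fre.mp he⟩

theorem card_relP_le (c : Fm (E × Fin q)) (w : Cf E q) : (relP c w).card ≤ c.lv :=
  (Finset.card_le_card ((relP_sub_fre c w).trans (fre_sub_blk c w))).trans (card_blk_le c)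

/-- number of blocks whose free variable is relevant for the given values of all variables -/
noncomputable def one (x : Fm (E × Fin q)) (w : Cf E q) : ℕ :=
  (univ.filter (fun e => x.ev w.2 ≠ x.ev (flip w.2 (e, w.1 e)))).card

theorem relP_pointwise (c : Fm (E × Fin q)) (w : Cf E q) :
    (relP c w).card ≤ (c.inst.map (fun x => one x w)).sum + (fre c w).offDiag.card := by
  by_cases h2 : 2 ≤ (fre c w).card
  · have h1 : (relP c w).card ≤ (fre c w).card := Finset.card_le_card (relP_sub_fre c w)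
    have h3 : (fre c w).card ≤ (fre c w).offDiag.card := by
      rw [Finset.offDiag_card]
      obtain ⟨m, hm⟩ : ∃ m, (fre c w).card = m + 2 := ⟨_, (Nat.sub_add_cancel h2).symm⟩
      rw [hm, Nat.le_sub_iff_add_le (by nlinarith)]
      nlinarith
    omega
  · rcases (relP c w).eq_empty_or_nonempty with h0 | ⟨e, he⟩
    · rw [h0]; simp
    · have hef := relP_sub_fre c w he
      have hfre : ∀ e' ∈ fre c w, e' = e := by
        intro e' he'
        exact Finset.card_le_one.mp (by omega) e' he' e hef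
      have h1 : (relP c w).card ≤ 1 := by
        have := Finset.card_le_card (relP_sub_fre c w)
        omega
      obtain ⟨y, x, hx, h⟩ := mem_relP.mp he
      have key : ∀ z : E → Bool, x.ev (asg w z) =
          x.ev (Function.update w.2 (e, w.1 e) (z e)) := by
        intro z
        refine Fm.ev_congr x fun p hp => ?_
        rw [Fm.oc_inst p c x hx] at hp
        simp only [asg]
        by_cases h3 : w.1 p.1 = p.2
        · rw [if_pos h3]
          have h4 : p.1 = e := hfre p.1 (by rw [mem_fre, h3]; exact hp)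
          have h5 : p = (e, w.1 e) := Prod.ext h4 (by rw [← h3, h4])
          rw [h5, Function.update_self]
        · rw [if_neg h3, Function.update_of_ne]
          rintro rfl
          exact h3 rfl
      rw [key, key, flip_self] at h
      have h6 : x.ev w.2 ≠ x.ev (flip w.2 (e, w.1 e)) := by
        by_cases h7 : y e = w.2 (e, w.1 e)
        · rw [h7, Function.update_eq_self] at h
          exact h
        · have h8 : (!(y e)) = w.2 (e, w.1 e) := by
            cases h9 : y e <;> cases h10 : w.2 (e, w.1 e) <;> simp_all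
          rw [h8, Function.update_eq_self] at h
          have h9 : y e = !(w.2 (e, w.1 e)) := by rw [← h8, Bool.not_not]
          rw [h9] at h
          exact fun hh => h hh.symm
      have h7 : 1 ≤ one x w := by
        unfold one
        rw [Nat.one_le_iff_ne_zero, ← Nat.pos_iff_ne_zero, Finset.card_pos]
        exact ⟨e, by simpa using h6⟩
      have h8 : one x w ≤ (c.inst.map (fun x => one x w)).sum :=
        List.single_le_sum (by simp) _ (List.mem_map_of_mem hx)
      omega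

/-! ### Expectations -/

theorem sum_upd (e : E) (F : (E → Fin q) → Fin q → ℝ) :
    ∑ s, ∑ j, F s j = ∑ s, ∑ j, F (Function.update s e j) (s e) := by
  have h1 := (Fintype.sum_prod_type (fun p : (E → Fin q) × Fin q => F p.1 p.2))
  have h2 := (Fintype.sum_prod_type
    (fun p : (E → Fin q) × Fin q => F (Function.update p.1 e p.2) (p.1 e)))
  rw [← h1, ← h2]
  let φ : (E → Fin q) × Fin q ≃ (E → Fin q) × Fin q :=
    { toFun := fun p => (Function.update p.1 e p.2, p.1 e)
      invFun := fun p => (Function.update p.1 e p.2, p.1 e)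
      left_inv := fun p => by simp
      right_inv := fun p => by simp }
  exact (Equiv.sum_comp φ (fun p => F p.1 p.2)).symm

theorem sum_one (e : E) (h : Fin q → ℝ) :
    (q : ℝ) * ∑ s : E → Fin q, h (s e) = (Fintype.card (E → Fin q) : ℝ) * ∑ j, h j := by
  have h1 := sum_upd e (fun s _ => h (s e))
  simp only [Function.update_self, Finset.sum_const, Finset.card_univ, Fintype.card_fin,
    nsmul_eq_mul] at h1
  rw [← Finset.mul_sum] at h1
  exact h1

theorem sum_two {e e' : E} (hne : e ≠ e') (h : Fin q → Fin q → ℝ) :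
    (q : ℝ) * (q * ∑ s : E → Fin q, h (s e) (s e')) =
      (Fintype.card (E → Fin q) : ℝ) * ∑ j, ∑ j', h j j' := by
  have h1 := sum_upd e (fun s _ => h (s e) (s e'))
  simp only [Function.update_self, Function.update_of_ne hne.symm, Finset.sum_const,
    Finset.card_univ, Fintype.card_fin, nsmul_eq_mul] at h1
  rw [← Finset.mul_sum] at h1
  rw [h1, Finset.sum_comm, Finset.mul_sum, Finset.mul_sum]
  refine Finset.sum_congr rfl fun j _ => ?_
  exact sum_one e' (fun i => h j i)

theorem sum_cf (F : Cf E q → ℝ) : ∑ w, F w = ∑ b, ∑ s, F (s, b) := by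
  rw [Finset.sum_comm]
  exact Fintype.sum_prod_type F

theorem card_cf : (Fintype.card (Cf E q) : ℝ) =
    (Fintype.card (E × Fin q → Bool) : ℝ) * (Fintype.card (E → Fin q) : ℝ) := by
  rw [Fintype.card_prod, mul_comm]
  push_cast
  ring

theorem exp_one (x : Fm (E × Fin q)) :
    (q : ℝ) * ∑ w : Cf E q, (one x w : ℝ) ≤ Real.sqrt x.lv * Fintype.card (Cf E q) := by
  have h1 : ∀ w : Cf E q, (one x w : ℝ) =
      ∑ e, if x.ev w.2 ≠ x.ev (flip w.2 (e, w.1 e)) then (1 : ℝ) else 0 := by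
    intro w
    unfold one
    rw [Finset.sum_boole]
  have h2 : (q : ℝ) * ∑ w : Cf E q, (one x w : ℝ) =
      (Fintype.card (E → Fin q) : ℝ) * infl x := by
    simp only [h1]
    rw [sum_cf]
    simp only []
    have h3 : ∀ b : E × Fin q → Bool, (q : ℝ) * ∑ s : E → Fin q, ∑ e,
        (if x.ev b ≠ x.ev (flip b (e, s e)) then (1 : ℝ) else 0) =
        (Fintype.card (E → Fin q) : ℝ) *
          ((univ.filter (fun v => x.ev b ≠ x.ev (flip b v))).card : ℝ) := by
      intro b
      rw [Finset.sum_comm, Finset.mul_sum]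
      have h4 : ∀ e : E, (q : ℝ) * ∑ s : E → Fin q,
          (if x.ev b ≠ x.ev (flip b (e, s e)) then (1 : ℝ) else 0) =
          (Fintype.card (E → Fin q) : ℝ) * ∑ j,
            (if x.ev b ≠ x.ev (flip b (e, j)) then (1 : ℝ) else 0) :=
        fun e => sum_one e (fun j => if x.ev b ≠ x.ev (flip b (e, j)) then (1 : ℝ) else 0)
      rw [Finset.sum_congr rfl (fun e _ => h4 e), ← Finset.mul_sum, ← Finset.sum_boole,
        Fintype.sum_prod_type]
    rw [Finset.mul_sum, Finset.sum_congr rfl (fun b _ => h3 b), ← Finset.mul_sum]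
    unfold infl
    push_cast
    rfl
  rw [h2, card_cf]
  have h3 := infl_le x
  have h4 : (0 : ℝ) ≤ (Fintype.card (E → Fin q) : ℝ) := Nat.cast_nonneg _
  calc (Fintype.card (E → Fin q) : ℝ) * infl x ≤
      (Fintype.card (E → Fin q) : ℝ) *
        (Real.sqrt x.lv * (Fintype.card (E × Fin q → Bool) : ℝ)) :=
        mul_le_mul_of_nonneg_left h3 h4
    _ = _ := by ring

theorem exp_fre (c : Fm (E × Fin q)) :
    (q : ℝ) * ∑ w : Cf E q, ((fre c w).card : ℝ) ≤ c.lv * Fintype.card (Cf E q) := by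
  have h1 : ∀ w : Cf E q, ((fre c w).card : ℝ) ≤ ∑ e, (c.oc (e, w.1 e) : ℝ) := by
    intro w
    unfold fre
    rw [← Finset.sum_boole]
    refine Finset.sum_le_sum fun e _ => ?_
    split
    · rename_i h
      exact_mod_cast h
    · exact Nat.cast_nonneg _
  have h2 : (q : ℝ) * ∑ w : Cf E q, ∑ e, (c.oc (e, w.1 e) : ℝ) =
      c.lv * Fintype.card (Cf E q) := by
    rw [sum_cf]
    simp only [Finset.sum_const, Finset.card_univ, nsmul_eq_mul]
    rw [Finset.sum_comm, mul_left_comm, Finset.mul_sum]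
    have h4 : ∀ e : E, (q : ℝ) * ∑ s : E → Fin q, (c.oc (e, s e) : ℝ) =
        (Fintype.card (E → Fin q) : ℝ) * ∑ j, (c.oc (e, j) : ℝ) :=
      fun e => sum_one e (fun j => (c.oc (e, j) : ℝ))
    rw [Finset.sum_congr rfl (fun e _ => h4 e), ← Finset.mul_sum, card_cf, ← Fm.sum_oc c,
      Fintype.sum_prod_type]
    push_cast
    ring
  calc (q : ℝ) * ∑ w : Cf E q, ((fre c w).card : ℝ) ≤
      (q : ℝ) * ∑ w : Cf E q, ∑ e, (c.oc (e, w.1 e) : ℝ) :=
        mul_le_mul_of_nonneg_left (Finset.sum_le_sum fun w _ => h1 w) (Nat.cast_nonneg _)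
    _ = _ := h2

theorem exp_off (c : Fm (E × Fin q)) :
    (q : ℝ) * (q * ∑ w : Cf E q, ((fre c w).offDiag.card : ℝ)) ≤
      (c.lv : ℝ) ^ 2 * Fintype.card (Cf E q) := by
  have h1 : ∀ w : Cf E q, ((fre c w).offDiag.card : ℝ) ≤
      ∑ p ∈ (univ : Finset E).offDiag, (c.oc (p.1, w.1 p.1) : ℝ) * c.oc (p.2, w.1 p.2) := by
    intro w
    calc ((fre c w).offDiag.card : ℝ) = ∑ p ∈ (fre c w).offDiag, (1 : ℝ) := by simp
      _ ≤ ∑ p ∈ (fre c w).offDiag, (c.oc (p.1, w.1 p.1) : ℝ) * c.oc (p.2, w.1 p.2) := by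
          refine Finset.sum_le_sum fun p hp => ?_
          rw [mem_offDiag] at hp
          have a1 : 1 ≤ c.oc (p.1, w.1 p.1) := mem_fre.mp hp.1
          have a2 : 1 ≤ c.oc (p.2, w.1 p.2) := mem_fre.mp hp.2.1
          exact_mod_cast Nat.mul_pos a1 a2
      _ ≤ _ := Finset.sum_le_sum_of_subset_of_nonneg (Finset.offDiag_mono (subset_univ _))
          (fun _ _ _ => by positivity)
  have h2 : (q : ℝ) * (q * ∑ w : Cf E q, ∑ p ∈ (univ : Finset E).offDiag,
      (c.oc (p.1, w.1 p.1) : ℝ) * c.oc (p.2, w.1 p.2)) =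
      (Fintype.card (Cf E q) : ℝ) * ∑ p ∈ (univ : Finset E).offDiag,
        ∑ j, ∑ j', (c.oc (p.1, j) : ℝ) * c.oc (p.2, j') := by
    rw [sum_cf]
    simp only [Finset.sum_const, Finset.card_univ, nsmul_eq_mul]
    rw [Finset.sum_comm, card_cf]
    have h4 : ∀ p ∈ (univ : Finset E).offDiag, (q : ℝ) * (q * ∑ s : E → Fin q,
        (c.oc (p.1, s p.1) : ℝ) * c.oc (p.2, s p.2)) =
        (Fintype.card (E → Fin q) : ℝ) * ∑ j, ∑ j', (c.oc (p.1, j) : ℝ) * c.oc (p.2, j') := by
      intro p hp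
      rw [mem_offDiag] at hp
      exact sum_two hp.2.2 (fun j j' => (c.oc (p.1, j) : ℝ) * c.oc (p.2, j'))
    calc (q : ℝ) * (q * ((Fintype.card (E × Fin q → Bool) : ℝ) *
          ∑ p ∈ (univ : Finset E).offDiag, ∑ s : E → Fin q,
            (c.oc (p.1, s p.1) : ℝ) * c.oc (p.2, s p.2)))
        = (Fintype.card (E × Fin q → Bool) : ℝ) * ∑ p ∈ (univ : Finset E).offDiag,
          (q : ℝ) * (q * ∑ s : E → Fin q, (c.oc (p.1, s p.1) : ℝ) * c.oc (p.2, s p.2)) := by
          rw [← Finset.mul_sum, ← Finset.mul_sum]; ring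
      _ = _ := by
          rw [Finset.sum_congr rfl h4, ← Finset.mul_sum]; ring
  have h3 : ∑ p ∈ (univ : Finset E).offDiag,
      ∑ j, ∑ j', (c.oc (p.1, j) : ℝ) * c.oc (p.2, j') ≤ (c.lv : ℝ) ^ 2 := by
    calc ∑ p ∈ (univ : Finset E).offDiag, ∑ j, ∑ j', (c.oc (p.1, j) : ℝ) * c.oc (p.2, j')
        ≤ ∑ p ∈ (univ : Finset E) ×ˢ (univ : Finset E),
          ∑ j, ∑ j', (c.oc (p.1, j) : ℝ) * c.oc (p.2, j') :=
          Finset.sum_le_sum_of_subset_of_nonneg (fun p _ => by simp)
            (fun _ _ _ => Finset.sum_nonneg fun _ _ => Finset.sum_nonneg fun _ _ => by positivity)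
      _ = (c.lv : ℝ) ^ 2 := by
          rw [Finset.sum_product, ← Fm.sum_oc c, Fintype.sum_prod_type, sq]
          push_cast
          rw [Finset.sum_mul_sum]
          refine Finset.sum_congr rfl fun e _ => Finset.sum_congr rfl fun e' _ => ?_
          rw [Finset.sum_mul_sum]
  calc (q : ℝ) * (q * ∑ w : Cf E q, ((fre c w).offDiag.card : ℝ)) ≤
      (q : ℝ) * (q * ∑ w : Cf E q, ∑ p ∈ (univ : Finset E).offDiag,
        (c.oc (p.1, w.1 p.1) : ℝ) * c.oc (p.2, w.1 p.2)) := by
        refine mul_le_mul_of_nonneg_left (mul_le_mul_of_nonneg_left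
          (Finset.sum_le_sum fun w _ => h1 w) (Nat.cast_nonneg _)) (Nat.cast_nonneg _)
    _ = _ := h2
    _ ≤ (Fintype.card (Cf E q) : ℝ) * (c.lv : ℝ) ^ 2 :=
        mul_le_mul_of_nonneg_left h3 (Nat.cast_nonneg _)
    _ = _ := by ring

theorem sum_list {α : Type} (L : List α) (f : α → Cf E q → ℕ) :
    ∑ w, (((L.map (fun x => f x w)).sum : ℕ) : ℝ) = (L.map (fun x => ∑ w, (f x w : ℝ))).sum := by
  induction L with
  | nil => simp
  | cons x L ih =>
    simp only [List.map_cons, List.sum_cons, Nat.cast_add, Finset.sum_add_distrib, ih]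

/-- the expected number of relevant blocks of a piece -/
theorem exp_relP (hq : 0 < q) (c : Fm (E × Fin q)) :
    ∑ w : Cf E q, ((relP c w).card : ℝ) ≤
      (2 ^ c.nsp * Real.sqrt c.lv / q + (c.lv : ℝ) ^ 2 / q ^ 2) * Fintype.card (Cf E q) := by
  have hq0 : (0 : ℝ) < q := by exact_mod_cast hq
  set N : ℝ := (Fintype.card (Cf E q) : ℝ) with hN
  have h1 : ∑ w : Cf E q, ((relP c w).card : ℝ) ≤
      ∑ w : Cf E q, (((c.inst.map (fun x => one x w)).sum : ℕ) : ℝ) +
        ∑ w : Cf E q, ((fre c w).offDiag.card : ℝ) := by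
    rw [← Finset.sum_add_distrib]
    refine Finset.sum_le_sum fun w _ => ?_
    exact_mod_cast relP_pointwise c w
  have h2 : ∑ w : Cf E q, (((c.inst.map (fun x => one x w)).sum : ℕ) : ℝ) ≤
      2 ^ c.nsp * Real.sqrt c.lv / q * N := by
    rw [sum_list]
    have h3 : ∀ r ∈ c.inst.map (fun x => ∑ w : Cf E q, (one x w : ℝ)),
        r ≤ Real.sqrt c.lv / q * N := by
      intro r hr
      obtain ⟨x, hx, rfl⟩ := List.mem_map.mp hr
      have := exp_one x
      rw [Fm.lv_inst c x hx] at this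
      rw [div_mul_eq_mul_div, le_div_iff₀ hq0, mul_comm]
      exact this
    have h4 := List.sum_le_card_nsmul _ _ h3
    rw [List.length_map, Fm.length_inst, nsmul_eq_mul] at h4
    refine h4.trans (le_of_eq ?_)
    push_cast
    ring
  have h3 : ∑ w : Cf E q, ((fre c w).offDiag.card : ℝ) ≤ (c.lv : ℝ) ^ 2 / q ^ 2 * N := by
    rw [div_mul_eq_mul_div, le_div_iff₀ (by positivity)]
    have := exp_off c
    calc (∑ w : Cf E q, ((fre c w).offDiag.card : ℝ)) * (q : ℝ) ^ 2 =
        (q : ℝ) * (q * ∑ w : Cf E q, ((fre c w).offDiag.card : ℝ)) := by ring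
      _ ≤ _ := this
  rw [add_mul]
  linarith

theorem exp_relP' (hq : 0 < q) (c : Fm (E × Fin q)) :
    ∑ w : Cf E q, ((relP c w).card : ℝ) ≤ c.lv / q * Fintype.card (Cf E q) := by
  have hq0 : (0 : ℝ) < q := by exact_mod_cast hq
  have h1 : ∑ w : Cf E q, ((relP c w).card : ℝ) ≤ ∑ w : Cf E q, ((fre c w).card : ℝ) := by
    refine Finset.sum_le_sum fun w _ => ?_
    exact_mod_cast Finset.card_le_card (relP_sub_fre c w)
  rw [div_mul_eq_mul_div, le_div_iff₀ hq0, mul_comm]
  exact (mul_le_mul_of_nonneg_left h1 hq0.le).trans (exp_fre c)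

end

end Pool.Agent.T9h49.RK
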