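import Pool.Agent.T9h49.RK.Graph
import Pool.Agent.T9h49.RK.Defs

/-!
# The clauses
-/

set_option autoImplicit false

namespace Pool.Agent.T9h49.RK

open Finset Classical

namespace PForm

/-- disjunction of a list -/
def bigOr : List PForm → PForm
  | [] => and (var 0) (neg (var 0))
  | [A] => A
  | A :: B :: l => or A (bigOr (B :: l))

theorem eval_bigOr (a : ℕ → Bool) : ∀ l : List PForm, l ≠ [] →
    ((bigOr l).eval a = true ↔ ∃ A ∈ l, A.eval a = true)
  | [], h => absurd rfl h
  | [A], _ => by simp [bigOr]
  | A :: B :: l, _ => by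
      have ih := eval_bigOr a (B :: l) (by simp)
      simp only [bigOr, eval, Bool.or_eq_true, ih]
      simp

theorem size_bigOr (m : ℕ) : ∀ l : List PForm, l ≠ [] → (∀ A ∈ l, A.size ≤ m) →
    (bigOr l).size ≤ (m + 1) * l.length
  | [], h, _ => absurd rfl h
  | [A], _, hm => by
      have := hm A (by simp)
      simp only [bigOr, List.length_cons, List.length_nil]
      omega
  | A :: B :: l, _, hm => by
      have ih := size_bigOr m (B :: l) (by simp) (fun C hC => hm C (List.mem_cons_of_mem _ hC))
      have h1 := hm A (by simp)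
      simp only [bigOr, size, List.length_cons] at ih ⊢
      calc A.size + (bigOr (B :: l)).size + 1 ≤ m + (m + 1) * (l.length + 1) + 1 := by omega
        _ = _ := by ring

theorem size_pos : ∀ A : PForm, 1 ≤ A.size
  | var _ => le_rfl
  | neg A => by simp [size]
  | and A B => by simp [size]
  | or A B => by simp [size]

theorem isClause_bigOr : ∀ l : List PForm, l ≠ [] → (∀ A ∈ l, A.IsLiteral) → (bigOr l).IsClause
  | [], h, _ => absurd rfl h
  | [A], _, hm => .lit A (hm A (by simp))
  | A :: B :: l, _, hm => .or _ _ (.lit A (hm A (by simp)))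
      (isClause_bigOr (B :: l) (by simp) (fun C hC => hm C (List.mem_cons_of_mem _ hC)))

end PForm

section

variable {P : Type} [Fintype P]

/-- numbering of the variables -/
noncomputable def num (p : P) : ℕ := (Fintype.equivFin P p).val

theorem num_inj {p p' : P} (h : num p = num p') : p = p' :=
  (Fintype.equivFin P).injective (Fin.ext h)

/-- the literal which is false if the set of true variables is `T` -/
noncomputable def lit (T : Finset P) (p : P) : PForm :=
  if p ∈ T then .neg (.var (num p)) else .var (num p)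

/-- the clause which excludes the assignment `T` of the variables in `U` -/
noncomputable def cl (U T : Finset P) : PForm := PForm.bigOr (U.toList.map (lit T))

theorem lit_eval (T : Finset P) (p : P) (a : ℕ → Bool) :
    (lit T p).eval a = true ↔ ¬ (p ∈ T ↔ a (num p) = true) := by
  unfold lit
  split
  · rename_i h
    simp [PForm.eval, h]
  · rename_i h
    simp [PForm.eval, h]

theorem cl_eval (U T : Finset P) (hU : U.Nonempty) (a : ℕ → Bool) :
    (cl U T).eval a = true ↔ ∃ p ∈ U, ¬ (p ∈ T ↔ a (num p) = true) := by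
  unfold cl
  rw [PForm.eval_bigOr]
  · constructor
    · rintro ⟨A, hA, h⟩
      obtain ⟨p, hp, rfl⟩ := List.mem_map.mp hA
      exact ⟨p, Finset.mem_toList.mp hp, (lit_eval T p a).mp h⟩
    · rintro ⟨p, hp, h⟩
      exact ⟨_, List.mem_map_of_mem (Finset.mem_toList.mpr hp), (lit_eval T p a).mpr h⟩
  · simp only [ne_eq, List.map_eq_nil_iff, Finset.toList_eq_nil]
    exact hU.ne_empty

theorem cl_size (U T : Finset P) (hU : U.Nonempty) : (cl U T).size ≤ 3 * U.card := by
  unfold cl
  have h := PForm.size_bigOr 2 (U.toList.map (lit T)) (by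
    simp only [ne_eq, List.map_eq_nil_iff, Finset.toList_eq_nil]
    exact hU.ne_empty) (by
    intro A hA
    obtain ⟨p, _, rfl⟩ := List.mem_map.mp hA
    unfold lit
    split <;> simp [PForm.size])
  simpa using h

theorem cl_clause (U T : Finset P) (hU : U.Nonempty) : (cl U T).IsClause := by
  unfold cl
  refine PForm.isClause_bigOr _ ?_ ?_
  · simp only [ne_eq, List.map_eq_nil_iff, Finset.toList_eq_nil]
    exact hU.ne_empty
  · intro A hA
    obtain ⟨p, _, rfl⟩ := List.mem_map.mp hA
    unfold lit
    split <;> simp [PForm.IsLiteral]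

/-- the clauses which say that an odd number of variables in `U` are true -/
noncomputable def oddCl (U : Finset P) : List PForm :=
  ((U.powerset.filter (fun T => Even T.card)).toList).map (cl U)

theorem mem_oddCl {U : Finset P} {A : PForm} :
    A ∈ oddCl U ↔ ∃ T ⊆ U, Even T.card ∧ A = cl U T := by
  unfold oddCl
  rw [List.mem_map]
  constructor
  · rintro ⟨T, hT, rfl⟩
    rw [Finset.mem_toList, mem_filter, mem_powerset] at hT
    exact ⟨T, hT.1, hT.2, rfl⟩
  · rintro ⟨T, h1, h2, rfl⟩
    exact ⟨T, by rw [Finset.mem_toList, mem_filter, mem_powerset]; exact ⟨h1, h2⟩, rfl⟩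

theorem oddCl_size (U : Finset P) (hU : U.Nonempty) :
    sizeL (oddCl U) ≤ 3 * 4 ^ U.card := by
  unfold sizeL
  have h1 : ∀ x ∈ (oddCl U).map PForm.size, x ≤ 3 * U.card := by
    intro x hx
    obtain ⟨A, hA, rfl⟩ := List.mem_map.mp hx
    obtain ⟨T, _, _, rfl⟩ := mem_oddCl.mp hA
    exact cl_size U T hU
  have h2 := List.sum_le_card_nsmul _ _ h1
  rw [List.length_map, smul_eq_mul] at h2
  have h3 : (oddCl U).length ≤ 2 ^ U.card := by
    unfold oddCl
    rw [List.length_map, Finset.length_toList, ← Finset.card_powerset]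
    exact Finset.card_filter_le _ _
  have h4 : U.card ≤ 2 ^ U.card := Nat.lt_two_pow_self.le
  calc ((oddCl U).map PForm.size).sum ≤ (oddCl U).length * (3 * U.card) := h2
    _ ≤ 2 ^ U.card * (3 * 2 ^ U.card) := Nat.mul_le_mul h3 (Nat.mul_le_mul_left 3 h4)
    _ = 3 * 4 ^ U.card := by
        have : (4 : ℕ) = 2 * 2 := rfl
        rw [this, mul_pow]
        ring

theorem oddCl_size_pos (U : Finset P) : 1 ≤ sizeL (oddCl U) := by
  have h1 : cl U ∅ ∈ oddCl U := mem_oddCl.mpr ⟨∅, by simp, by simp, rfl⟩
  unfold sizeL
  exact (PForm.size_pos _).trans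
    (List.single_le_sum (by simp) _ (List.mem_map_of_mem h1))

/-- formulas over the variables `P`; the other variables are replaced by `false` -/
noncomputable def pull : PForm → Fm P
  | .var n => if h : ∃ p : P, num p = n then .var h.choose else .cst false
  | .neg A => .neg (pull A)
  | .and A B => .conj (pull A) (pull B)
  | .or A B => .disj (pull A) (pull B)

/-- extension of an assignment by `false` -/
noncomputable def ext (x : P → Bool) (n : ℕ) : Bool :=
  if h : ∃ p : P, num p = n then x h.choose else false

theorem ext_num (x : P → Bool) (p : P) : ext x (num p) = x p := by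
  have h : ∃ p' : P, num p' = num p := ⟨p, rfl⟩
  rw [ext, dif_pos h, num_inj h.choose_spec]

theorem ev_pull (x : P → Bool) (A : PForm) : (pull A : Fm P).ev x = A.eval (ext x) := by
  induction A with
  | var n =>
    simp only [pull, PForm.eval, ext]
    split <;> rfl
  | neg A ih => simp only [pull, Fm.ev, PForm.eval, ih]
  | and A B iA iB => simp only [pull, Fm.ev, PForm.eval, iA, iB]
  | or A B iA iB => simp only [pull, Fm.ev, PForm.eval, iA, iB]

theorem nsp_pull (A : PForm) : (pull A : Fm P).nsp = 0 := by
  induction A with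
  | var n =>
    simp only [pull]
    split <;> rfl
  | neg A ih => simpa only [pull, Fm.nsp] using ih
  | and A B iA iB => simp only [pull, Fm.nsp, iA, iB]
  | or A B iA iB => simp only [pull, Fm.nsp, iA, iB]

theorem oc_pull [DecidableEq P] (p : P) (A : PForm) :
    (pull A : Fm P).oc p = A.occ (num p) := by
  induction A with
  | var n =>
    simp only [pull, PForm.occ]
    split
    · rename_i h
      simp only [Fm.oc]
      by_cases h1 : n = num p
      · rw [if_pos h1, if_pos]
        exact num_inj (h.choose_spec.trans h1)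
      · rw [if_neg h1, if_neg]
        intro h2
        exact h1 (by rw [← h.choose_spec, h2])
    · rename_i h
      simp only [Fm.oc]
      rw [if_neg]
      rintro rfl
      exact h ⟨p, rfl⟩
  | neg A ih => simpa only [pull, Fm.oc, PForm.occ] using ih
  | and A B iA iB => simp only [pull, Fm.oc, PForm.occ, iA, iB]
  | or A B iA iB => simp only [pull, Fm.oc, PForm.occ, iA, iB]

theorem mem_vars (n : ℕ) (A : PForm) : n ∈ A.vars ↔ 0 < A.occ n := by
  induction A with
  | var m =>
    simp only [PForm.vars, PForm.occ, mem_singleton]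
    split
    · rename_i h; simp [h]
    · rename_i h; simp [Ne.symm h]
  | neg A ih => simpa only [PForm.vars, PForm.occ] using ih
  | and A B iA iB => simp only [PForm.vars, PForm.occ, mem_union, iA, iB]; omega
  | or A B iA iB => simp only [PForm.vars, PForm.occ, mem_union, iA, iB]; omega

end

theorem eval_subst (a : ℕ → Bool) (σ : ℕ → PForm) (A : PForm) :
    (A.subst σ).eval a = A.eval (fun n => (σ n).eval a) := by
  induction A with
  | var n => rfl
  | neg A ih => simp only [PForm.subst, PForm.eval, ih]
  | and A B iA iB => simp only [PForm.subst, PForm.eval, iA, iB]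
  | or A B iA iB => simp only [PForm.subst, PForm.eval, iA, iB]

section

variable {E : Type} {q : ℕ} [Fintype E]

theorem card_heavy_pull (k : ℕ) (A : PForm) :
    (univ.filter (fun v => k < (pull A : Fm (E × Fin q)).oc v)).card ≤
      (A.vars.filter (fun n => k < A.occ n)).card := by
  refine Finset.card_le_card_of_injOn num ?_ ?_
  · intro v hv
    have h := (mem_filter.mp (Finset.mem_coe.mp hv)).2
    rw [oc_pull] at h
    rw [Finset.mem_coe, mem_filter, mem_vars]
    exact ⟨by omega, h⟩
  · intro v _ v' _ h
    exact num_inj h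

theorem card_blk_pull (A : PForm) : (blk (pull A : Fm (E × Fin q))).card ≤ A.vars.card := by
  refine Finset.card_le_card_of_injOn
    (fun e => if h : ∃ i : Fin q, 0 < (pull A : Fm (E × Fin q)).oc (e, i) then
      num (e, h.choose) else 0) ?_ ?_
  · intro e he
    have h := mem_blk.mp (Finset.mem_coe.mp he)
    simp only [dif_pos h, Finset.mem_coe]
    rw [mem_vars, ← oc_pull]
    exact h.choose_spec
  · intro e he e' he' heq
    have h := mem_blk.mp (Finset.mem_coe.mp he)
    have h' := mem_blk.mp (Finset.mem_coe.mp he')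
    simp only [dif_pos h, dif_pos h'] at heq
    exact congrArg Prod.fst (num_inj heq)

end

section

variable {N D q : ℕ}

/-- the variables of the blocks at `v` -/
noncomputable def Uv (f : Fin (N + 1) × Fin D → Fin (N + 1)) (q : ℕ) (v : Fin (N + 1)) :
    Finset (Ed N D × Fin q) := univ.filter (fun p => Inc f v p.1)

/-- the clauses of the graph -/
noncomputable def tse (f : Fin (N + 1) × Fin D → Fin (N + 1)) (q : ℕ) : List PForm :=
  (univ : Finset (Fin (N + 1))).toList.flatMap (fun v => oddCl (Uv f q v))

theorem mem_tse {f : Fin (N + 1) × Fin D → Fin (N + 1)} {A : PForm} :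
    A ∈ tse f q ↔ ∃ v, ∃ T ⊆ Uv f q v, Even T.card ∧ A = cl (Uv f q v) T := by
  unfold tse
  rw [List.mem_flatMap]
  simp only [Finset.mem_toList, mem_univ, true_and, mem_oddCl]

theorem Uv_nonempty (f : Fin (N + 1) × Fin D → Fin (N + 1)) (hq : 0 < q) (hN : 1 ≤ N)
    (v : Fin (N + 1)) : (Uv f q v).Nonempty := by
  refine ⟨(Sum.inl v, ⟨0, hq⟩), ?_⟩
  simp only [Uv, mem_filter, mem_univ, true_and]
  refine Or.inl ⟨rfl, ?_⟩
  simp only [hd]
  intro h
  have h1 : (1 : Fin (N + 1)) = 0 := by
    have := congrArg (fun x => x - v) h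
    simpa using this.symm
  obtain ⟨m, rfl⟩ : ∃ m, N = m + 1 := ⟨N - 1, by omega⟩
  exact absurd h1 (by simp)

theorem par_eq (f : Fin (N + 1) × Fin D → Fin (N + 1)) (v : Fin (N + 1))
    (x : Ed N D × Fin q → Bool) :
    par (Inc f) v x = (((Uv f q v).filter (fun p => x p = true)).card : ZMod 2) := by
  unfold par Uv
  rw [Finset.sum_boole]

theorem par_dich (a : ZMod 2) : a = 0 ∨ a = 1 := by
  revert a
  decide

theorem cl_sound (f : Fin (N + 1) × Fin D → Fin (N + 1)) (hq : 0 < q) (hN : 1 ≤ N)
    (v : Fin (N + 1)) (T : Finset (Ed N D × Fin q)) (hT : T ⊆ Uv f q v) (hE : Even T.card)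
    (x : Ed N D × Fin q → Bool) (h : par (Inc f) v x = 1) :
    (cl (Uv f q v) T).eval (ext x) = true := by
  rw [cl_eval _ _ (Uv_nonempty f hq hN v)]
  by_contra hcon
  push Not at hcon
  have h1 : (Uv f q v).filter (fun p => x p = true) = T := by
    ext p
    rw [mem_filter]
    constructor
    · rintro ⟨hp, h2⟩
      rw [(hcon p hp), ext_num]
      exact h2
    · intro hp
      refine ⟨hT hp, ?_⟩
      have := (hcon p (hT hp)).mp hp
      rwa [ext_num] at this
  rw [par_eq, h1] at h
  rw [(ZMod.natCast_eq_zero_iff_even).mpr hE] at h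
  exact absurd h (by decide)

theorem tse_clause (f : Fin (N + 1) × Fin D → Fin (N + 1)) (hq : 0 < q) (hN : 1 ≤ N) :
    ∀ A ∈ tse f q, A.IsClause := by
  intro A hA
  obtain ⟨v, T, _, _, rfl⟩ := mem_tse.mp hA
  exact cl_clause _ _ (Uv_nonempty f hq hN v)

theorem sum_inc (f : Fin (N + 1) × Fin D → Fin (N + 1)) (e : Ed N D) :
    ∑ v, (if Inc f v e then (1 : ZMod 2) else 0) = 0 := by
  have h1 : ∀ v, (if Inc f v e then (1 : ZMod 2) else 0) =
      (if v = tl e then 1 else 0) + (if v = hd f e then 1 else 0) := by
    intro v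
    by_cases h2 : v = tl e
    · by_cases h3 : v = hd f e
      · rw [if_neg, if_pos h2, if_pos h3]
        · decide
        · rintro (⟨_, h⟩ | ⟨h, _⟩)
          · exact h h3
          · exact h h2
      · rw [if_pos (show Inc f v e from Or.inl ⟨h2, h3⟩), if_pos h2, if_neg h3, add_zero]
    · by_cases h3 : v = hd f e
      · rw [if_pos (show Inc f v e from Or.inr ⟨h2, h3⟩), if_neg h2, if_pos h3, zero_add]
      · rw [if_neg, if_neg h2, if_neg h3, add_zero]
        rintro (⟨h, _⟩ | ⟨_, h⟩)
        · exact h2 h
        · exact h3 h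
  rw [Finset.sum_congr rfl (fun v _ => h1 v), Finset.sum_add_distrib]
  simp only [Finset.sum_ite_eq', mem_univ, if_true]
  decide

theorem tse_unsat (f : Fin (N + 1) × Fin D → Fin (N + 1)) (hq : 0 < q) (hN : 1 ≤ N)
    (hE : Even N) : Unsat (tse f q) := by
  intro a
  by_contra hcon
  push Not at hcon
  set x : Ed N D × Fin q → Bool := fun p => a (num p) with hx
  have h1 : ∀ v, par (Inc f) v x = 1 := by
    intro v
    rcases par_dich (par (Inc f) v x) with h0 | h0
    · exfalso
      rw [par_eq, ZMod.natCast_eq_zero_iff_even] at h0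
      have h2 := hcon _ (mem_tse.mpr ⟨v, (Uv f q v).filter (fun p => x p = true),
        Finset.filter_subset _ _, h0, rfl⟩)
      apply h2
      have h3 : ¬ (cl (Uv f q v) ((Uv f q v).filter (fun p => x p = true))).eval a = true := by
        rw [cl_eval _ _ (Uv_nonempty f hq hN v)]
        push Not
        intro p hp
        rw [mem_filter]
        exact ⟨fun h => h.2, fun h => ⟨hp, h⟩⟩
      simpa using h3
    · exact h0
  have h2 : ∑ v, par (Inc f) v x = 0 := by
    unfold par
    simp only [Finset.sum_filter]
    rw [Finset.sum_comm]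
    refine Finset.sum_eq_zero fun p _ => ?_
    have h3 := sum_inc f p.1
    by_cases hp : x p = true
    · simp only [hp, if_true]
      exact h3
    · simp [hp]
  rw [Finset.sum_congr rfl (fun v _ => h1 v)] at h2
  simp only [Finset.sum_const, Finset.card_univ, Fintype.card_fin, nsmul_eq_mul, mul_one] at h2
  rw [ZMod.natCast_eq_zero_iff_even] at h2
  exact (Nat.not_even_iff_odd.mpr (Even.add_one hE)) h2

end

end Pool.Agent.T9h49.RK
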